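import Pool.Agent.U874.FP.Point

/-!
# The equivalences for the outer half and the two-sided statement
-/

set_option autoImplicit false
open MeasureTheory ProbabilityTheory Filter Set
open scoped ENNReal Topology Pointwise

namespace Pool.Agent.U874.FP

open Pool.Agent.N662.FP

variable {Ω : Type} [MeasureSpace Ω] [IsProbabilityMeasure (volume : Measure Ω)]
  {X : Sym2 (ℤ × ℤ) → Ω → ℝ}

omit [IsProbabilityMeasure (volume : Measure Ω)] in
theorem nonneg_ae (hX : Iid X) (v : ℤ × ℤ) :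
    ∀ᵐ ω ∂(volume : Measure Ω), 0 ≤ D (env X ω) 0 v := by
  filter_upwards [cAE Ω X hX] with ω hω
  exact (cGE (env X ω) hω 0 v).2.2.1

/-- the equivalent forms of the outer half -/
theorem outer_tfae (hX : Iid X) (μ : Seminorm ℝ (ℝ × ℝ)) (hμ : ∀ x, μ x = 0 → x = 0) {K : ℝ}
    (hK : K < 1) {T : Ω → ℤ × ℤ → ℝ} (hT : T = fun ω v => D (env X ω) 0 v) :
    List.TFAE [
      ∀ κ : ℝ, 0 < κ → κ < K → ∀ q : ℝ, 0 < q → Asymptotics.IsBigO atTop
        (fun t : ℝ => (volume : Measure Ω).real (Esc T μ κ t)) (fun t : ℝ => t ^ (-q)),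
      ∀ κ : ℝ, 0 < κ → κ < K → Asymptotics.IsBigO atTop
        (fun t : ℝ => (volume : Measure Ω).real (Esc T μ κ t))
        (fun t : ℝ => t ^ (-(1 + 2 ^ (1 / (1 - K)) : ℝ))),
      ∀ κ : ℝ, 0 < κ → κ < K → ∃ b : ℝ, 0 < b ∧
        ∀ᶠ t : ℝ in atTop, (volume : Measure Ω).real (Esc T μ κ t) ≤ Real.exp (-(t ^ b)),
      ∀ κ : ℝ, 0 < κ → κ < K → ∃ c : ℝ, 0 < c ∧ Low T μ κ c,
      ∀ κ : ℝ, 0 < κ → κ < K → ∃ c : ℝ, 0 < c ∧ Rate T μ κ c,
      ∀ κ : ℝ, 0 < κ → κ < K → ∃ C : ℝ, 0 < C ∧ Pt T μ κ (3 + 2 ^ (1 / (1 - K))) C] := by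
  subst hT
  tfae_have 3 → 1 := by
    intro h κ h0 h1 q hq
    obtain ⟨b, hb, hbb⟩ := h κ h0 h1
    refine (Asymptotics.IsBigO.of_bound 1 ?_).trans (exp_O b q hb)
    filter_upwards [hbb] with t ht
    rw [Real.norm_of_nonneg measureReal_nonneg, Real.norm_of_nonneg (Real.exp_pos _).le, one_mul]
    exact ht
  tfae_have 1 → 2 := by
    intro h κ h0 h1
    exact h κ h0 h1 _ (by positivity)
  tfae_have 2 → 4 := by
    intro h κ h0 h1
    refine low_of_esc hX μ hμ (κ := (κ + K) / 2) (q := 1 + 2 ^ (1 / (1 - K))) h0 (by linarith)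
      (by linarith) ?_ (h ((κ + K) / 2) (by linarith) (by linarith))
    have h2 : 1 / (1 - κ) < 1 / (1 - K) :=
      one_div_lt_one_div_of_lt (by linarith) (by linarith)
    have h3 : (2 : ℝ) ^ (1 / (1 - κ)) < 2 ^ (1 / (1 - K)) :=
      Real.rpow_lt_rpow_of_exponent_lt (by norm_num) h2
    linarith
  tfae_have 4 → 3 := by
    intro h κ h0 h1
    obtain ⟨c, hc, hcc⟩ := h ((κ + K) / 2) (by linarith) (by linarith)
    exact esc_of_low μ hμ (κ' := (κ + K) / 2) h0 (by linarith) (by linarith) hc hcc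
  tfae_have 4 → 5 := by
    intro h κ h0 h1
    obtain ⟨c, hc, hcc⟩ := h κ h0 h1
    exact ⟨c, hc, rate_of_low hcc⟩
  tfae_have 5 → 4 := by
    intro h κ h0 h1
    obtain ⟨c, hc, hcc⟩ := h κ h0 h1
    exact ⟨c, hc, low_of_rate hX h0 hcc⟩
  tfae_have 4 → 6 := by
    intro h κ h0 h1
    obtain ⟨c, hc, hcc⟩ := h ((κ + K) / 2) (by linarith) (by linarith)
    exact pt_of_low _ h0 (by linarith) (by linarith) hc (fun v => nonneg_ae hX v) hcc
  tfae_have 6 → 4 := by
    intro h κ h0 h1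
    obtain ⟨κ1, hκ1⟩ : ∃ κ1 : ℝ, κ1 = (κ + K) / 2 := ⟨_, rfl⟩
    obtain ⟨κ2, hκ2⟩ : ∃ κ2 : ℝ, κ2 = (κ1 + K) / 2 := ⟨_, rfl⟩
    obtain ⟨C, hC, hP⟩ := h κ2 (by rw [hκ2, hκ1]; linarith) (by rw [hκ2, hκ1]; linarith)
    have h2 : 1 / (1 - κ) < 1 / (1 - K) :=
      one_div_lt_one_div_of_lt (by linarith) (by linarith)
    have h3 : (2 : ℝ) ^ (1 / (1 - κ)) < 2 ^ (1 / (1 - K)) :=
      Real.rpow_lt_rpow_of_exponent_lt (by norm_num) h2
    have h4 : (0 : ℝ) < 2 ^ (1 / (1 - κ)) := by positivity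
    have h5 := esc_of_pt μ hμ (κ := κ1) (κ' := κ2)
      (s := 2 + ((2 : ℝ) ^ (1 / (1 - K)) - 2 ^ (1 / (1 - κ))) / 2) (by linarith)
      (by linarith) (by linarith) hC (by linarith) (by linarith) hP
    exact low_of_esc hX μ hμ h0 (by linarith) (by linarith) (by linarith) h5
  tfae_finish

/-- the two-sided statement -/
theorem two_sided (hX : Iid X) (μ : Seminorm ℝ (ℝ × ℝ)) {K : ℝ}
    (hK : K < 1) {T : Ω → ℤ × ℤ → ℝ} (hT : T = fun ω v => D (env X ω) 0 v) (hG : Good T μ) :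
    (∀ κ : ℝ, 0 < κ → κ < K → ∀ q : ℝ, 0 < q →
      Asymptotics.IsBigO atTop
        (fun t : ℝ => (volume : Measure Ω).real (Esc T μ κ t)) (fun t : ℝ => t ^ (-q)) ∧
      Asymptotics.IsBigO atTop
        (fun t : ℝ => (volume : Measure Ω).real (Bad T μ κ t)) (fun t : ℝ => t ^ (-q))) ↔
    (∀ κ : ℝ, 0 < κ → κ < K →
      (∃ c : ℝ, 0 < c ∧ Low T μ κ c) ∧
      ∃ A : ℝ, ∀ v : ℤ × ℤ, ∫ ω, T ω v ∂(volume : Measure Ω) ≤
        μ (em v) + A * (1 + μ (em v)) ^ (1 - κ)) := by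
  have ho := outer_tfae hX μ hG.norm hK hT
  have hi := tfae cNORM cDD2 cEE hG K hK
  constructor
  · intro h κ h0 h1
    have h2 := (ho.out 0 3).1 (fun κ h0 h1 q hq => (h κ h0 h1 q hq).1)
    have h3 := (hi.out 1 4).1 (fun κ h0 h1 q hq => (h κ h0 h1 q hq).2)
    refine ⟨h2 κ h0 h1, ?_⟩
    obtain ⟨A, hA⟩ := h3 κ h0 h1
    refine ⟨A, fun v => ?_⟩
    have h4 : ∫ ω, (T ω v - μ (em v)) ∂(volume : Measure Ω) ≤
        ∫ ω, |T ω v - μ (em v)| ∂(volume : Measure Ω) := by
      refine integral_mono ((hG.int v).sub (integrable_const _))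
        ((hG.int v).sub (integrable_const _)).abs fun ω => le_abs_self _
    rw [integral_sub (hG.int v) (integrable_const _)] at h4
    simp only [integral_const, probReal_univ, one_smul] at h4
    have := hA v
    linarith
  · intro h
    have h2 := (ho.out 0 3).2 (fun κ h0 h1 => (h κ h0 h1).1)
    have h3 := (hi.out 1 4).2 (fun κ h0 h1 => by
      obtain ⟨⟨c, hc, hL⟩, A, hA⟩ := h κ h0 h1
      refine ⟨A + 2 * (Real.exp c / c), fun v => ?_⟩
      have h4 := neg_part h0 (h1.trans hK) hc hG.int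
        (fun v => by rw [hT]; exact nonneg_ae hX v) hL v
      have hint : Integrable (fun ω => max (μ (em v) - T ω v) 0) (volume : Measure Ω) :=
        ((integrable_const _).sub (hG.int v)).pos_part
      have h5 : ∫ ω, |T ω v - μ (em v)| ∂(volume : Measure Ω) =
          (∫ ω, T ω v ∂(volume : Measure Ω) - μ (em v)) +
            2 * ∫ ω, max (μ (em v) - T ω v) 0 ∂(volume : Measure Ω) := by
        have e : ∀ ω, |T ω v - μ (em v)| =
            (T ω v - μ (em v)) + 2 * max (μ (em v) - T ω v) 0 := by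
          intro ω
          rcases le_total (μ (em v)) (T ω v) with h6 | h6
          · rw [abs_of_nonneg (by linarith), max_eq_right (by linarith)]
            ring
          · rw [abs_of_nonpos (by linarith), max_eq_left (by linarith)]
            ring
        calc ∫ ω, |T ω v - μ (em v)| ∂(volume : Measure Ω)
            = ∫ ω, ((T ω v - μ (em v)) + 2 * max (μ (em v) - T ω v) 0)
                ∂(volume : Measure Ω) := integral_congr_ae (Eventually.of_forall e)
          _ = ∫ ω, (T ω v - μ (em v)) ∂(volume : Measure Ω) +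
                ∫ ω, 2 * max (μ (em v) - T ω v) 0 ∂(volume : Measure Ω) :=
              integral_add ((hG.int v).sub (integrable_const _)) (hint.const_mul 2)
          _ = _ := by
              rw [integral_sub (hG.int v) (integrable_const _), integral_const_mul]
              simp only [integral_const, probReal_univ, one_smul]
      rw [h5]
      have h6 := hA v
      have e : (A + 2 * (Real.exp c / c)) * (1 + μ (em v)) ^ (1 - κ) =
          A * (1 + μ (em v)) ^ (1 - κ) +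
            2 * (Real.exp c / c * (1 + μ (em v)) ^ (1 - κ)) := by ring
      rw [e]
      linarith)
    exact fun κ h0 h1 q hq => ⟨h2 κ h0 h1 q hq, h3 κ h0 h1 q hq⟩

end Pool.Agent.U874.FP
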