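import Pool.Agent.U874.FP.Low
import Pool.Agent.N662.FP.Cl

/-!
# The outer half: one exponent, the rate function, and the two-sided statement
-/

set_option autoImplicit false
open MeasureTheory ProbabilityTheory Filter Set
open scoped ENNReal Topology Pointwise

namespace Pool.Agent.U874.FP

open Pool.Agent.N662.FP

set_option linter.unusedSectionVars false

variable {Ω : Type} [MeasureSpace Ω] [IsProbabilityMeasure (volume : Measure Ω)]
  {X : Sym2 (ℤ × ℤ) → Ω → ℝ}

theorem out_sub (μ : Seminorm ℝ (ℝ × ℝ)) (T : Ω → ℤ × ℤ → ℝ) (κ t : ℝ) (ht : 0 < t) :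
    {ω | ∃ v : V, t + t ^ (1 - κ) < μ (em v) ∧ T ω v ≤ t} ⊆ Esc T μ κ t := by
  rintro ω ⟨v, h1, h2⟩
  have hs : 0 < (1 + t ^ (-κ)) * t := by positivity
  have hst : (1 + t ^ (-κ)) * t = t + t ^ (1 - κ) := by
    rw [show (1 : ℝ) - κ = -κ + 1 by ring, Real.rpow_add ht, Real.rpow_one]
    ring
  show ¬ (Fat (T ω) t ⊆ ((1 + t ^ (-κ)) * t) • {x : ℝ × ℝ | μ x ≤ 1})
  intro h
  have h3 : em v ∈ Fat (T ω) t := by
    refine ⟨v, h2, ?_, ?_⟩
    · show |(v.1 : ℝ) - (v.1 : ℝ)| ≤ 1 / 2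
      rw [sub_self, abs_zero]
      norm_num
    · show |(v.2 : ℝ) - (v.2 : ℝ)| ≤ 1 / 2
      rw [sub_self, abs_zero]
      norm_num
  have h4 := (Set.mem_smul_set_iff_inv_smul_mem₀ hs.ne' _ _).1 (h h3)
  have h5 : μ (((1 + t ^ (-κ)) * t)⁻¹ • em v) ≤ 1 := h4
  rw [map_smul_eq_mul, Real.norm_of_nonneg (inv_nonneg.2 hs.le), ← div_eq_inv_mul,
    div_le_one hs, hst] at h5
  linarith

/-- one exponent of polynomial decay of the outer event gives the lower tails -/
theorem low_of_esc (hX : Iid X) (μ : Seminorm ℝ (ℝ × ℝ)) (hμ : ∀ x, μ x = 0 → x = 0)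
    {κ κ' q : ℝ} (h0 : 0 < κ') (h1 : κ' < κ) (hκ : κ < 1) (hq : 1 + 2 ^ (1 / (1 - κ')) < q)
    (hE : Asymptotics.IsBigO atTop (fun t : ℝ => (volume : Measure Ω).real
      (Esc (fun ω v => D (env X ω) 0 v) μ κ t)) (fun t : ℝ => t ^ (-q))) :
    ∃ c : ℝ, 0 < c ∧ Low (fun ω v => D (env X ω) 0 v) μ κ' c := by
  refine low_of_boot hX μ h0 (h1.trans hκ) rfl (boot hX μ hμ h0 h1 hκ rfl hq ?_)
  obtain ⟨C, hC⟩ := hE.bound
  obtain ⟨t0, ht0⟩ := eventually_atTop.1 hC
  refine ⟨max C 1, max t0 1, lt_max_of_lt_right one_pos, fun t ht => ?_⟩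
  have h2 := ht0 t ((le_max_left _ _).trans ht)
  have h3 : 0 < t := lt_of_lt_of_le one_pos ((le_max_right _ _).trans ht)
  rw [Real.norm_of_nonneg measureReal_nonneg,
    Real.norm_of_nonneg (Real.rpow_nonneg h3.le _)] at h2
  refine (measure_mono (μ := (volume : Measure Ω))
    (out_sub μ (fun ω v => D (env X ω) 0 v) κ t h3)).trans ?_
  rw [← ofReal_measureReal (μ := (volume : Measure Ω))
    (s := Esc (fun ω v => D (env X ω) 0 v) μ κ t) (measure_ne_top _ _)]
  refine ENNReal.ofReal_le_ofReal (h2.trans ?_)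
  gcongr
  exact le_max_left _ _

/-! ### the rate function -/

/-- the lower-tail rate function in the direction `v` is at least `c μ(v) ε ^ (1 / κ)` -/
def Rate (T : Ω → ℤ × ℤ → ℝ) (μ : Seminorm ℝ (ℝ × ℝ)) (κ c : ℝ) : Prop :=
  ∀ (v : ℤ × ℤ) (ε δ : ℝ), 0 < ε → ε ≤ 1 → 0 < δ → ∀ᶠ n : ℕ in atTop,
    (volume : Measure Ω).real {ω | T ω ((n : ℤ) • v) ≤ (1 - ε) * (n * μ (em v))} ≤
      Real.exp (-(n * (c * μ (em v) * ε ^ (1 / κ) - δ)))

theorem em_nsmul (μ : Seminorm ℝ (ℝ × ℝ)) (n : ℕ) (v : ℤ × ℤ) :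
    μ (em ((n : ℤ) • v)) = n * μ (em v) := by
  have : em ((n : ℤ) • v) = (n : ℝ) • em v := by
    unfold Pool.Agent.N662.FP.em
    ext <;> simp
  rw [this, map_smul_eq_mul, Real.norm_of_nonneg (Nat.cast_nonneg n)]

theorem rate_of_low {T : Ω → ℤ × ℤ → ℝ} {μ : Seminorm ℝ (ℝ × ℝ)} {κ c : ℝ} (h : Low T μ κ c) :
    Rate T μ κ c := by
  intro v ε δ h0 h1 hδ
  refine Eventually.of_forall fun n => ?_
  have h2 := h ((n : ℤ) • v) ε h0.le h1
  rw [em_nsmul] at h2
  refine h2.trans (Real.exp_le_exp.2 ?_)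
  have : 0 ≤ (n : ℝ) * δ := by positivity
  nlinarith

theorem low_of_rate (hX : Iid X) {μ : Seminorm ℝ (ℝ × ℝ)} {κ c : ℝ} (hκ : 0 < κ)
    (h : Rate (fun ω v => D (env X ω) 0 v) μ κ c) : Low (fun ω v => D (env X ω) 0 v) μ κ c := by
  -- strict version
  have key : ∀ (v : ℤ × ℤ) (ε : ℝ), 0 < ε → ε ≤ 1 →
      (volume : Measure Ω).real {ω | D (env X ω) 0 v < (1 - ε) * μ (em v)} ≤
        Real.exp (-(c * μ (em v) * ε ^ (1 / κ))) := by
    intro v ε h0 h1
    have h2 : ∀ δ : ℝ, 0 < δ →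
        (volume : Measure Ω).real {ω | D (env X ω) 0 v < (1 - ε) * μ (em v)} ≤
          Real.exp (-(c * μ (em v) * ε ^ (1 / κ) - δ)) := by
      intro δ hδ
      obtain ⟨n0, hn0⟩ := eventually_atTop.1 (h v ε δ h0 h1 hδ)
      have h3 := hn0 (n0 + 1) (by omega)
      have h4 := tail_pow hX ((1 - ε) * μ (em v)) v n0
      have h5 : (volume : Measure Ω).real {ω | D (env X ω) 0 v < (1 - ε) * μ (em v)} ^ (n0 + 1) ≤
          Real.exp (-(c * μ (em v) * ε ^ (1 / κ) - δ)) ^ (n0 + 1) := by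
        calc (volume : Measure Ω).real {ω | D (env X ω) 0 v < (1 - ε) * μ (em v)} ^ (n0 + 1)
            = (((volume : Measure Ω) {ω | D (env X ω) 0 v < (1 - ε) * μ (em v)}) ^
                (n0 + 1)).toReal := by
              rw [ENNReal.toReal_pow]
              rfl
          _ ≤ ((volume : Measure Ω) {ω | D (env X ω) 0 (((n0 + 1 : ℕ) : ℤ) • v) <
                ((n0 + 1 : ℕ) : ℝ) * ((1 - ε) * μ (em v))}).toReal :=
              ENNReal.toReal_mono (measure_ne_top _ _) h4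
          _ ≤ (volume : Measure Ω).real {ω | D (env X ω) 0 (((n0 + 1 : ℕ) : ℤ) • v) ≤
                (1 - ε) * (((n0 + 1 : ℕ) : ℝ) * μ (em v))} := by
              refine measureReal_mono (μ := (volume : Measure Ω)) (fun ω hω => ?_)
                (measure_ne_top _ _)
              have h6 : D (env X ω) 0 (((n0 + 1 : ℕ) : ℤ) • v) <
                ((n0 + 1 : ℕ) : ℝ) * ((1 - ε) * μ (em v)) := hω
              show D (env X ω) 0 (((n0 + 1 : ℕ) : ℤ) • v) ≤
                (1 - ε) * (((n0 + 1 : ℕ) : ℝ) * μ (em v))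
              linarith
          _ ≤ _ := h3
          _ = _ := by
              rw [← Real.exp_nat_mul]
              congr 1
              push_cast
              ring
      exact le_of_pow_le_pow_left₀ (Nat.succ_ne_zero n0) (Real.exp_pos _).le h5
    have h3 : Tendsto (fun δ : ℝ => Real.exp (-(c * μ (em v) * ε ^ (1 / κ) - δ)))
        (𝓝[>] 0) (𝓝 (Real.exp (-(c * μ (em v) * ε ^ (1 / κ) - 0)))) := by
      refine Tendsto.mono_left ?_ nhdsWithin_le_nhds
      exact Continuous.tendsto (by fun_prop) 0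
    rw [sub_zero] at h3
    exact ge_of_tendsto h3 (by filter_upwards [self_mem_nhdsWithin] with δ hδ using h2 δ hδ)
  intro v ε h0 h1
  have hM : 0 ≤ μ (em v) := apply_nonneg μ _
  rcases eq_or_lt_of_le hM with h2 | h2
  · have e0 : c * μ (em v) * ε ^ (1 / κ) = 0 := by rw [← h2]; ring
    rw [e0, neg_zero, Real.exp_zero]
    exact measureReal_le_one
  rcases eq_or_lt_of_le h0 with h3 | h3
  · rw [← h3, Real.zero_rpow (by positivity), mul_zero, neg_zero, Real.exp_zero]
    exact measureReal_le_one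
  have h4 : Tendsto (fun e : ℝ => Real.exp (-(c * μ (em v) * e ^ (1 / κ))))
      (𝓝[<] ε) (𝓝 (Real.exp (-(c * μ (em v) * ε ^ (1 / κ))))) := by
    refine Tendsto.mono_left ?_ nhdsWithin_le_nhds
    have : ContinuousAt (fun e : ℝ => e ^ (1 / κ)) ε :=
      Real.continuousAt_rpow_const _ _ (Or.inl h3.ne')
    exact (Real.continuous_exp.tendsto _).comp ((this.tendsto.const_mul _).neg)
  refine ge_of_tendsto h4 ?_
  filter_upwards [self_mem_nhdsWithin, mem_nhdsWithin_of_mem_nhds (lt_mem_nhds h3)] with e he he0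
  have he' : e < ε := he
  refine le_trans (measureReal_mono (μ := (volume : Measure Ω)) (fun ω hω => ?_)
    (measure_ne_top _ _)) (key v e he0 (he'.le.trans h1))
  have h6 : D (env X ω) 0 v ≤ (1 - ε) * μ (em v) := hω
  show D (env X ω) 0 v < (1 - e) * μ (em v)
  nlinarith

/-! ### the mean of the negative part -/

theorem neg_part {T : Ω → ℤ × ℤ → ℝ} {μ : Seminorm ℝ (ℝ × ℝ)} {κ c : ℝ} (hκ : 0 < κ)
    (hκ1 : κ < 1) (hc : 0 < c) (hT : ∀ v, Integrable (fun ω => T ω v) (volume : Measure Ω))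
    (h0 : ∀ v, ∀ᵐ ω ∂(volume : Measure Ω), 0 ≤ T ω v)
    (h : Low T μ κ c) (v : ℤ × ℤ) :
    ∫ ω, max (μ (em v) - T ω v) 0 ∂(volume : Measure Ω) ≤
      Real.exp c / c * (1 + μ (em v)) ^ (1 - κ) := by
  have hM : 0 ≤ μ (em v) := apply_nonneg μ _
  obtain ⟨M, hMd⟩ : ∃ M : ℝ, M = μ (em v) := ⟨_, rfl⟩
  rw [← hMd] at hM ⊢
  obtain ⟨r, hr⟩ : ∃ r : ℝ, r = (1 + M) ^ (1 - κ) := ⟨_, rfl⟩
  have hr0 : 0 < r := by rw [hr]; positivity
  rw [← hr]
  have hint : Integrable (fun ω => max (M - T ω v) 0) (volume : Measure Ω) :=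
    ((integrable_const M).sub (hT v)).pos_part
  rw [hint.integral_eq_integral_meas_le (Eventually.of_forall fun ω => le_max_right _ _)]
  obtain ⟨lam, hlam⟩ : ∃ lam : ℝ, lam = c / r := ⟨_, rfl⟩
  have hlam0 : 0 < lam := by rw [hlam]; positivity
  have hg : IntegrableOn (fun t : ℝ => Real.exp c * Real.exp (-lam * t)) (Ioi 0) :=
    (exp_neg_integrableOn_Ioi 0 hlam0).const_mul _
  have hval : ∫ t in Ioi (0 : ℝ), Real.exp c * Real.exp (-lam * t) = Real.exp c / c * r := by
    rw [integral_const_mul, integral_exp_mul_Ioi (by linarith : -lam < 0)]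
    simp only [mul_zero, Real.exp_zero]
    rw [hlam]
    field_simp
  rw [← hval]
  refine integral_mono_of_nonneg (Eventually.of_forall fun t => measureReal_nonneg) hg ?_
  filter_upwards [ae_restrict_mem measurableSet_Ioi] with t ht
  have ht0 : (0 : ℝ) < t := ht
  have hsub : {ω : Ω | t ≤ max (M - T ω v) 0} ⊆ {ω | T ω v ≤ M - t} := by
    intro ω hω
    have h1 : t ≤ max (M - T ω v) 0 := hω
    rcases le_max_iff.1 h1 with h2 | h2
    · show T ω v ≤ M - t
      linarith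
    · exact absurd h2 (not_le.2 ht0)
  have h1 : (volume : Measure Ω).real {ω | T ω v ≤ M - t} ≤
      Real.exp c * Real.exp (-lam * t) := by
    rcases lt_or_ge M t with h2 | h2
    · have : (volume : Measure Ω).real {ω | T ω v ≤ M - t} = 0 := by
        rw [measureReal_eq_zero_iff]
        refine measure_mono_null (t := {ω | ¬ 0 ≤ T ω v}) (fun ω hω => ?_) (h0 v)
        have h3 : T ω v ≤ M - t := hω
        show ¬ 0 ≤ T ω v
        linarith
      rw [this]
      positivity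
    · have hM0 : 0 < M := lt_of_lt_of_le ht0 h2
      have h3 := h v (t / M) (by positivity) (by rw [div_le_one hM0]; exact h2)
      rw [← hMd] at h3
      have e1 : (1 - t / M) * M = M - t := by field_simp
      rw [e1] at h3
      refine h3.trans ?_
      rw [← Real.exp_add, Real.exp_le_exp]
      have e2 : M * (t / M) ^ (1 / κ) = (t / M ^ (1 - κ)) ^ (1 / κ) := by
        rw [Real.div_rpow ht0.le hM0.le, Real.div_rpow ht0.le (by positivity),
          ← Real.rpow_mul hM0.le]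
        have e3 : (1 - κ) * (1 / κ) = 1 / κ - 1 := by field_simp
        rw [e3, Real.rpow_sub_one hM0.ne']
        field_simp
      have h4 : t / r ≤ t / M ^ (1 - κ) := by
        refine div_le_div_of_nonneg_left ht0.le (by positivity) ?_
        rw [hr]
        exact Real.rpow_le_rpow hM0.le (by linarith) (by linarith)
      have h5 : t / M ^ (1 - κ) - 1 ≤ (t / M ^ (1 - κ)) ^ (1 / κ) := by
        rcases le_total (t / M ^ (1 - κ)) 1 with h6 | h6
        · have : 0 ≤ (t / M ^ (1 - κ)) ^ (1 / κ) := by positivity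
          linarith
        · have h7 : (t / M ^ (1 - κ)) ^ (1 : ℝ) ≤ (t / M ^ (1 - κ)) ^ (1 / κ) :=
            Real.rpow_le_rpow_of_exponent_le h6 (by rw [le_div_iff₀ hκ]; linarith)
          rw [Real.rpow_one] at h7
          linarith
      have h6 : t / r - 1 ≤ M * (t / M) ^ (1 / κ) := by rw [e2]; linarith
      have h7 : c * (t / r - 1) ≤ c * (M * (t / M) ^ (1 / κ)) := by gcongr
      have e4 : c * (t / r - 1) = lam * t - c := by
        rw [hlam]
        field_simp
      rw [e4] at h7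
      linarith
  exact (measureReal_mono (μ := (volume : Measure Ω)) hsub (measure_ne_top _ _)).trans h1

end Pool.Agent.U874.FP
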