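import Pool.Agent.U874.FP.Step

/-!
# The induction over the Laplace parameter
-/

set_option autoImplicit false
open MeasureTheory ProbabilityTheory Filter Set
open scoped ENNReal Topology

namespace Pool.Agent.U874.FP

open Pool.Agent.N662.FP

set_option linter.unusedSectionVars false

/-- the conditions on the scale hold for large `L` -/
theorem params {κ κ' q a β C K c1 R1 : ℝ} (h1 : κ' < κ) (hκ : κ < 1) (hβ : 1 < β)
    (hq : 1 + 2 ^ a * β < q) (hC : 0 < C) (hK : 0 < K) :
    ∀ᶠ L : ℝ in atTop, R1 ≤ β * L * Real.exp L ∧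
      (β * L * Real.exp L) ^ (1 - κ) * Real.exp (-((1 - κ') * L)) ≤ 1 ∧
      C * (β * L * Real.exp L / 2) ^ (-q) * (K * (β * L * Real.exp L)) *
        Real.exp (2 ^ a * (β * L)) ≤ 1 ∧
      Real.log (5 * K * (β * L * Real.exp L)) + c1 ≤ β * L := by
  have hβ0 : 0 < β := by linarith
  -- first
  have e1 : ∀ᶠ L : ℝ in atTop, R1 ≤ β * L * Real.exp L := by
    have : Tendsto (fun L : ℝ => β * L * Real.exp L) atTop atTop :=
      (tendsto_id.const_mul_atTop hβ0).atTop_mul_atTop₀ Real.tendsto_exp_atTop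
    exact this.eventually_ge_atTop _
  -- second
  have e2 : ∀ᶠ L : ℝ in atTop,
      (β * L * Real.exp L) ^ (1 - κ) * Real.exp (-((1 - κ') * L)) ≤ 1 := by
    have t1 := (tendsto_rpow_mul_exp_neg_mul_atTop_nhds_zero (1 - κ) (κ - κ')
      (by linarith)).const_mul (β ^ (1 - κ))
    rw [mul_zero] at t1
    filter_upwards [t1.eventually_le_const one_pos, eventually_gt_atTop (0 : ℝ)] with L hL hL0
    refine le_trans (le_of_eq ?_) hL
    rw [Real.mul_rpow (by positivity) (Real.exp_pos _).le, Real.mul_rpow hβ0.le hL0.le,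
      ← Real.exp_mul]
    have : Real.exp (L * (1 - κ)) * Real.exp (-((1 - κ') * L)) = Real.exp (-(κ - κ') * L) := by
      rw [← Real.exp_add]
      congr 1
      ring
    calc β ^ (1 - κ) * L ^ (1 - κ) * Real.exp (L * (1 - κ)) * Real.exp (-((1 - κ') * L))
        = β ^ (1 - κ) * (L ^ (1 - κ) * (Real.exp (L * (1 - κ)) * Real.exp (-((1 - κ') * L)))) := by
          ring
      _ = _ := by rw [this]
  -- third
  have e3 : ∀ᶠ L : ℝ in atTop, C * (β * L * Real.exp L / 2) ^ (-q) * (K * (β * L * Real.exp L)) *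
        Real.exp (2 ^ a * (β * L)) ≤ 1 := by
    have t1 := (tendsto_rpow_mul_exp_neg_mul_atTop_nhds_zero (1 - q) (q - 1 - 2 ^ a * β)
      (by linarith)).const_mul (C * 2 ^ q * K * β ^ (1 - q))
    rw [mul_zero] at t1
    filter_upwards [t1.eventually_le_const one_pos, eventually_gt_atTop (0 : ℝ)] with L hL hL0
    refine le_trans (le_of_eq ?_) hL
    have hR : 0 < β * L * Real.exp L := by positivity
    have f1 : (β * L * Real.exp L / 2) ^ (-q) = 2 ^ q * (β * L * Real.exp L) ^ (-q) := by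
      rw [Real.div_rpow hR.le (by norm_num), Real.rpow_neg (by norm_num : (0:ℝ) ≤ 2),
        div_inv_eq_mul, mul_comm]
    have f2 : (β * L * Real.exp L) ^ (-q) * (β * L * Real.exp L) =
        (β * L * Real.exp L) ^ (1 - q) := by
      rw [show (1 : ℝ) - q = -q + 1 by ring, Real.rpow_add hR, Real.rpow_one]
    have f3 : (β * L * Real.exp L) ^ (1 - q) =
        β ^ (1 - q) * L ^ (1 - q) * Real.exp (L * (1 - q)) := by
      rw [Real.mul_rpow (by positivity) (Real.exp_pos _).le, Real.mul_rpow hβ0.le hL0.le,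
        ← Real.exp_mul]
    have f4 : Real.exp (L * (1 - q)) * Real.exp (2 ^ a * (β * L)) =
        Real.exp (-(q - 1 - 2 ^ a * β) * L) := by
      rw [← Real.exp_add]
      congr 1
      ring
    calc C * (β * L * Real.exp L / 2) ^ (-q) * (K * (β * L * Real.exp L)) *
          Real.exp (2 ^ a * (β * L))
        = C * 2 ^ q * K * ((β * L * Real.exp L) ^ (-q) * (β * L * Real.exp L)) *
            Real.exp (2 ^ a * (β * L)) := by rw [f1]; ring
      _ = C * 2 ^ q * K * β ^ (1 - q) * (L ^ (1 - q) *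
            (Real.exp (L * (1 - q)) * Real.exp (2 ^ a * (β * L)))) := by rw [f2, f3]; ring
      _ = _ := by rw [f4]
  -- fourth
  have e4 : ∀ᶠ L : ℝ in atTop, Real.log (5 * K * (β * L * Real.exp L)) + c1 ≤ β * L := by
    have t1 := (tendsto_rpow_mul_exp_neg_mul_atTop_nhds_zero 1 (β - 1)
      (by linarith)).const_mul (5 * K * β * Real.exp c1)
    rw [mul_zero] at t1
    filter_upwards [t1.eventually_le_const one_pos, eventually_gt_atTop (0 : ℝ)] with L hL hL0
    have hR : 0 < 5 * K * (β * L * Real.exp L) := by positivity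
    have h5 : 5 * K * (β * L * Real.exp L) ≤ Real.exp (β * L - c1) := by
      rw [Real.rpow_one] at hL
      have f1 : Real.exp (-(β - 1) * L) = Real.exp L * Real.exp (-(β * L)) := by
        rw [← Real.exp_add]
        congr 1
        ring
      rw [f1] at hL
      have f2 : 5 * K * (β * L * Real.exp L) * (Real.exp c1 * Real.exp (-(β * L))) ≤ 1 := by
        refine le_trans (le_of_eq ?_) hL
        ring
      have f3 : Real.exp c1 * Real.exp (-(β * L)) = (Real.exp (β * L - c1))⁻¹ := by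
        rw [← Real.exp_neg, ← Real.exp_add]
        congr 1
        ring
      rw [f3, ← div_eq_mul_inv, div_le_one (Real.exp_pos _)] at f2
      exact f2
    have h6 := Real.log_le_log hR h5
    rw [Real.log_exp] at h6
    linarith
  filter_upwards [e1, e2, e3, e4] with L g1 g2 g3 g4
  exact ⟨g1, g2, g3, g4⟩

variable {Ω : Type} [MeasureSpace Ω] [IsProbabilityMeasure (volume : Measure Ω)]
  {X : Sym2 (ℤ × ℤ) → Ω → ℝ}

/-- the bootstrap -/
theorem boot (hX : Iid X) (μ : Seminorm ℝ (ℝ × ℝ)) (hμ : ∀ x, μ x = 0 → x = 0) {κ κ' q a : ℝ}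
    (h0 : 0 < κ') (h1 : κ' < κ) (hκ : κ < 1) (ha : a = 1 / (1 - κ')) (hq : 1 + 2 ^ a < q)
    (hE : ∃ C t0 : ℝ, 0 < C ∧ ∀ t : ℝ, t0 ≤ t →
      (volume : Measure Ω) {ω | ∃ v : V, t + t ^ (1 - κ) < μ (em v) ∧ D (env X ω) 0 v ≤ t} ≤
        ENNReal.ofReal (C * t ^ (-q))) :
    ∃ C0 : ℝ, 0 < C0 ∧ ∀ lam : ℝ, 0 < lam → ∀ w : V, phi X lam w 0 ≤
      ENNReal.ofReal (Real.exp (-((lam - C0 * lam ^ a) * μ (em w)))) := by
  obtain ⟨C, t0, hC, hE⟩ := hE
  obtain ⟨c1, K, hc1, hK, hgeo⟩ := geo μ hμ
  have ha1 : 1 < a := by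
    rw [ha, lt_div_iff₀ (by linarith)]
    linarith
  have ha0 : 0 < a := by linarith
  have h2a : (0 : ℝ) < 2 ^ a := Real.rpow_pos_of_pos (by norm_num) _
  obtain ⟨β, hβ1, hβ2⟩ : ∃ β : ℝ, 1 < β ∧ 1 + 2 ^ a * β < q := by
    refine ⟨1 + (q - 1 - 2 ^ a) / (2 * 2 ^ a), ?_, ?_⟩
    · have : 0 < (q - 1 - 2 ^ a) / (2 * 2 ^ a) := div_pos (by linarith) (by linarith)
      linarith
    · have : 2 ^ a * (1 + (q - 1 - 2 ^ a) / (2 * 2 ^ a)) = 2 ^ a + (q - 1 - 2 ^ a) / 2 := by
        field_simp
      rw [this]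
      linarith
  -- the scale beyond which `R - R ^ (1 - κ)` is at least `R / 2`
  obtain ⟨R1, hR1a, hR1b, hR1⟩ : ∃ R1 : ℝ, 1 ≤ R1 ∧ 2 * t0 ≤ R1 ∧
      ∀ R : ℝ, R1 ≤ R → R ^ (1 - κ) ≤ R / 2 := by
    have t1 : Tendsto (fun R : ℝ => R ^ (-κ)) atTop (𝓝 0) := tendsto_rpow_neg_atTop (by linarith)
    obtain ⟨R0, hR0⟩ := eventually_atTop.1 (t1.eventually_le_const (show (0 : ℝ) < 1 / 2 by norm_num))
    refine ⟨max (max 1 (2 * t0)) R0, le_trans (le_max_left _ _) (le_max_left _ _),
      le_trans (le_max_right _ _) (le_max_left _ _), fun R hR => ?_⟩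
    have g1 := hR0 R ((le_max_right _ _).trans hR)
    have g2 : 0 < R := lt_of_lt_of_le one_pos
      (((le_max_left _ _).trans (le_max_left _ _)).trans hR)
    have g3 : R ^ (1 - κ) = R * R ^ (-κ) := by
      rw [show (1 : ℝ) - κ = 1 + (-κ) by ring, Real.rpow_add g2, Real.rpow_one]
    rw [g3]
    nlinarith
  obtain ⟨L1, hL1⟩ := eventually_atTop.1
    (params (κ := κ) (κ' := κ') (q := q) (a := a) (β := β) (C := C) (K := K) (c1 := c1) (R1 := R1)
      h1 hκ hβ1 hβ2 hC hK)
  obtain ⟨L0, hL0a, hL0b⟩ : ∃ L0 : ℝ, 1 ≤ L0 ∧ L1 ≤ L0 := ⟨max 1 L1, le_max_left _ _, le_max_right _ _⟩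
  obtain ⟨C0, hC0⟩ : ∃ C0 : ℝ, C0 = Real.exp ((a - 1) * L0) := ⟨_, rfl⟩
  have hC01 : 1 ≤ C0 := by
    rw [hC0]
    refine Real.one_le_exp ?_
    nlinarith
  have hC00 : 0 < C0 := by linarith
  refine ⟨C0, hC00, ?_⟩
  -- the trivial case
  have triv : ∀ lam : ℝ, 0 < lam → lam ≤ C0 * lam ^ a → ∀ w : V, phi X lam w 0 ≤
      ENNReal.ofReal (Real.exp (-((lam - C0 * lam ^ a) * μ (em w)))) := by
    intro lam hl h w
    refine (phi_le_one hX hl.le w 0).trans ?_
    rw [← ENNReal.ofReal_one]
    refine ENNReal.ofReal_le_ofReal (Real.one_le_exp ?_)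
    have : 0 ≤ μ (em w) := apply_nonneg μ _
    nlinarith
  have main : ∀ n : ℕ, ∀ lam : ℝ, 0 < lam → 1 ≤ 2 ^ n * lam → ∀ w : V, phi X lam w 0 ≤
      ENNReal.ofReal (Real.exp (-((lam - C0 * lam ^ a) * μ (em w)))) := by
    intro n
    induction n with
    | zero =>
      intro lam hl h1'
      refine triv lam hl ?_
      have g1 : 1 ≤ lam := by simpa using h1'
      have g2 : lam ≤ lam ^ a := by
        calc lam = lam ^ (1 : ℝ) := (Real.rpow_one _).symm
          _ ≤ lam ^ a := Real.rpow_le_rpow_of_exponent_le g1 ha1.le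
      nlinarith
    | succ n ih =>
      intro lam hl h1'
      have IH := ih (2 * lam) (by linarith) (by rw [pow_succ] at h1'; linarith)
      rcases le_or_gt lam (C0 * lam ^ a) with hly | hly
      · exact triv lam hl hly
      have hla : 0 < lam ^ a := Real.rpow_pos_of_pos hl _
      obtain ⟨y, hy⟩ : ∃ y : ℝ, y = C0 * lam ^ a := ⟨_, rfl⟩
      have hy0 : 0 < y := by rw [hy]; positivity
      obtain ⟨L, hL⟩ : ∃ L : ℝ, L = -Real.log y := ⟨_, rfl⟩
      have hyL : y = Real.exp (-L) := by rw [hL, neg_neg, Real.exp_log hy0]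
      -- `L0 < L`
      have hLL : L0 < L := by
        have g1 : C0 * lam ^ (a - 1) < 1 := by
          have g2 : lam ^ a = lam ^ (a - 1) * lam := by
            rw [← Real.rpow_add_one hl.ne']
            congr 1
            ring
          rw [g2, ← mul_assoc] at hly
          have : C0 * lam ^ (a - 1) * lam < 1 * lam := by linarith
          exact lt_of_mul_lt_mul_right this hl.le
        have g3 : lam < Real.exp (-L0) := by
          have g4 : lam ^ (a - 1) < (Real.exp (-L0)) ^ (a - 1) := by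
            rw [← Real.exp_mul]
            have g5 : Real.exp (-L0 * (a - 1)) = C0⁻¹ := by
              rw [hC0, ← Real.exp_neg]
              congr 1
              ring
            rw [g5, ← one_div, lt_div_iff₀ hC00, mul_comm]
            exact g1
          exact (Real.rpow_lt_rpow_iff hl.le (Real.exp_pos _).le (by linarith)).1 g4
        have g6 : y < Real.exp (-L0) := by
          rw [hy]
          exact hly.trans g3
        rw [hyL, Real.exp_lt_exp] at g6
        linarith
      have hL1' := hL1 L (by linarith)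
      obtain ⟨R, hR⟩ : ∃ R : ℝ, R = β * L * Real.exp L := ⟨_, rfl⟩
      rw [← hR] at hL1'
      obtain ⟨p1, p2, p3, p4⟩ := hL1'
      have hR1' : 1 ≤ R := hR1a.trans p1
      have hR0 : 0 < R := by linarith
      have hyR : y * R = β * L := by
        rw [hyL, hR]
        have : Real.exp (-L) * Real.exp L = 1 := by rw [← Real.exp_add]; simp
        calc Real.exp (-L) * (β * L * Real.exp L) = β * L * (Real.exp (-L) * Real.exp L) := by ring
          _ = _ := by rw [this, mul_one]
      have hlamy : lam ≤ Real.exp (-((1 - κ') * L)) := by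
        have g1 : lam ^ a ≤ y := by rw [hy]; nlinarith
        have g2 : lam ^ a ≤ (Real.exp (-((1 - κ') * L))) ^ a := by
          rw [← Real.exp_mul]
          have : -((1 - κ') * L) * a = -L := by
            rw [ha]
            have : 1 - κ' ≠ 0 := by linarith
            field_simp
          rw [this, ← hyL]
          exact g1
        exact (Real.rpow_le_rpow_iff hl.le (Real.exp_pos _).le ha0).1 g2
      have hlam1 : lam ≤ 1 := by
        refine hlamy.trans (Real.exp_le_one_iff.2 ?_)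
        have : 0 ≤ (1 - κ') * L := mul_nonneg (by linarith) (by linarith)
        linarith
      obtain ⟨t, ht⟩ : ∃ t : ℝ, t = R - R ^ (1 - κ) := ⟨_, rfl⟩
      have hRk : R ^ (1 - κ) ≤ R / 2 := hR1 R p1
      have hRk0 : 0 < R ^ (1 - κ) := Real.rpow_pos_of_pos hR0 _
      have htR : R / 2 ≤ t := by rw [ht]; linarith
      have ht0' : t0 ≤ t := by linarith
      have htpos : 0 < t := by linarith
      have htle : t + t ^ (1 - κ) ≤ R := by
        have g1 : t ^ (1 - κ) ≤ R ^ (1 - κ) :=
          Real.rpow_le_rpow htpos.le (by rw [ht]; linarith) (by linarith)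
        rw [ht] at g1 ⊢
        linarith
      obtain ⟨Db, hD1, hD2, hD3⟩ := hgeo R hR1'
      have hpE : 0 < C * (R / 2) ^ (-q) := by positivity
      intro w
      have hfin := scale hX μ hc1.le hK hR1' hD1 hD2 hD3 (lam := lam) (y := y) (y' := 2 ^ a * y)
        (t := t) (pE := C * (R / 2) ^ (-q)) hl hy0.le hpE ?_ ?_ ?_ ?_ ?_ w
      · rw [hy] at hfin
        exact hfin
      · intro w
        have g1 : C0 * (2 * lam) ^ a = 2 ^ a * y := by
          rw [Real.mul_rpow (by norm_num) hl.le, hy]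
          ring
        have := IH w
        rwa [g1] at this
      · refine ((measure_mono ?_).trans (hE t ht0')).trans (ENNReal.ofReal_le_ofReal ?_)
        · rintro ω ⟨v, hv1, hv2⟩
          exact ⟨v, by linarith, hv2.le⟩
        · refine mul_le_mul_of_nonneg_left ?_ hC.le
          refine Real.rpow_le_rpow_of_nonpos (by linarith) htR ?_
          linarith
      · have g1 : 2 ^ a * y * R = 2 ^ a * (β * L) := by rw [← hyR]; ring
        rw [g1]
        exact p3
      · have g1 : lam * (R - t) ≤ R ^ (1 - κ) * Real.exp (-((1 - κ') * L)) := by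
          rw [ht, sub_sub_cancel, mul_comm]
          exact mul_le_mul_of_nonneg_left hlamy hRk0.le
        exact g1.trans p2
      · rw [hyR]
        have g1 : lam * c1 ≤ c1 := by nlinarith
        linarith
  intro lam hl
  obtain ⟨n, hn⟩ := pow_unbounded_of_one_lt (1 / lam) (one_lt_two : (1 : ℝ) < 2)
  refine main n lam hl ?_
  rw [div_lt_iff₀ hl] at hn
  exact hn.le

end Pool.Agent.U874.FP
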