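import Pool.Agent.U874.FP.Mult

/-!
# The boundary of the lattice points of a norm ball has at most linearly many points
-/

set_option autoImplicit false
open MeasureTheory ProbabilityTheory Filter Set
open scoped ENNReal Topology

namespace Pool.Agent.U874.FP

open Pool.Agent.N662.FP

theorem em_add (a b : V) : em (a + b) = em a + em b := by
  unfold Pool.Agent.N662.FP.em
  ext <;> simp

theorem em_sub (a b : V) : em (a - b) = em a - em b := by
  unfold Pool.Agent.N662.FP.em
  ext <;> simp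

theorem em_smul (n : ℕ) (a : V) : em ((n : ℤ) • a) = (n : ℝ) • em a := by
  unfold Pool.Agent.N662.FP.em
  ext <;> simp

/-- quasiconvexity of a seminorm along rows -/
theorem row_max (μ : Seminorm ℝ (ℝ × ℝ)) {i0 i i1 j : ℤ} (h0 : i0 ≤ i) (h1 : i ≤ i1) :
    μ (em (i, j)) ≤ max (μ (em (i0, j))) (μ (em (i1, j))) := by
  have hc : ConvexOn ℝ Set.univ μ := μ.convexOn
  refine hc.le_max_of_mem_segment (Set.mem_univ _) (Set.mem_univ _) ?_
  rcases eq_or_lt_of_le (h0.trans h1) with h | h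
  · have : i = i0 := by omega
    rw [this]
    exact left_mem_segment ℝ _ _
  · have hd : (0 : ℝ) < (i1 : ℝ) - i0 := by
      have : (i0 : ℝ) < i1 := by exact_mod_cast h
      linarith
    have g0 : (i0 : ℝ) ≤ i := by exact_mod_cast h0
    have g1 : (i : ℝ) ≤ i1 := by exact_mod_cast h1
    refine ⟨(i1 - i) / (i1 - i0), (i - i0) / (i1 - i0), div_nonneg (by linarith) hd.le,
      div_nonneg (by linarith) hd.le, ?_, ?_⟩
    · rw [← add_div]
      have : (i1 : ℝ) - i + (i - i0) = i1 - i0 := by ring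
      rw [this, div_self hd.ne']
    · unfold Pool.Agent.N662.FP.em
      ext
      · simp only [Prod.fst_add, Prod.smul_fst, smul_eq_mul]
        field_simp
        ring
      · simp only [Prod.snd_add, Prod.smul_snd, smul_eq_mul]
        field_simp
        ring

/-- quasiconvexity of a seminorm along columns -/
theorem col_max (μ : Seminorm ℝ (ℝ × ℝ)) {i0 i i1 j : ℤ} (h0 : i0 ≤ i) (h1 : i ≤ i1) :
    μ (em (j, i)) ≤ max (μ (em (j, i0))) (μ (em (j, i1))) := by
  have hc : ConvexOn ℝ Set.univ μ := μ.convexOn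
  refine hc.le_max_of_mem_segment (Set.mem_univ _) (Set.mem_univ _) ?_
  rcases eq_or_lt_of_le (h0.trans h1) with h | h
  · have : i = i0 := by omega
    rw [this]
    exact left_mem_segment ℝ _ _
  · have hd : (0 : ℝ) < (i1 : ℝ) - i0 := by
      have : (i0 : ℝ) < i1 := by exact_mod_cast h
      linarith
    have g0 : (i0 : ℝ) ≤ i := by exact_mod_cast h0
    have g1 : (i : ℝ) ≤ i1 := by exact_mod_cast h1
    refine ⟨(i1 - i) / (i1 - i0), (i - i0) / (i1 - i0), div_nonneg (by linarith) hd.le,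
      div_nonneg (by linarith) hd.le, ?_, ?_⟩
    · rw [← add_div]
      have : (i1 : ℝ) - i + (i - i0) = i1 - i0 := by ring
      rw [this, div_self hd.ne']
    · unfold Pool.Agent.N662.FP.em
      ext
      · simp only [Prod.fst_add, Prod.smul_fst, smul_eq_mul]
        field_simp
        ring
      · simp only [Prod.snd_add, Prod.smul_snd, smul_eq_mul]
        field_simp
        ring

theorem nb_cases {a b : V} (h : Nb a b) :
    a = (b.1 + 1, b.2) ∨ a = (b.1 - 1, b.2) ∨ a = (b.1, b.2 + 1) ∨ a = (b.1, b.2 - 1) := by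
  obtain ⟨a1, a2⟩ := a
  obtain ⟨b1, b2⟩ := b
  have h' : |b1 - a1| + |b2 - a2| = 1 := h
  simp only [Prod.mk.injEq]
  rcases abs_cases (b1 - a1) with ⟨h1, h1'⟩ | ⟨h1, h1'⟩ <;>
  rcases abs_cases (b2 - a2) with ⟨h2, h2'⟩ | ⟨h2, h2'⟩ <;> omega

/-- the boundary -/
theorem geo (μ : Seminorm ℝ (ℝ × ℝ)) (hμ : ∀ x, μ x = 0 → x = 0) :
    ∃ c1 K : ℝ, 0 < c1 ∧ 0 < K ∧ ∀ R : ℝ, 1 ≤ R → ∃ D : Finset V,
      (∀ a ∈ {v : V | μ (em v) ≤ R}, ∀ b, b ∉ {v : V | μ (em v) ≤ R} → Nb a b → b ∈ D) ∧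
      (∀ z ∈ D, R < μ (em z) ∧ μ (em z) ≤ R + c1) ∧ (D.card : ℝ) ≤ K * R := by
  classical
  obtain ⟨c, C, hc, hC, hcC⟩ := cNORM μ hμ
  refine ⟨C, 4 * (2 * ((1 + C) / c) + 3), hC, by positivity, fun R hR => ?_⟩
  obtain ⟨M, hM⟩ : ∃ M : ℕ, M = ⌈(R + C) / c⌉₊ := ⟨_, rfl⟩
  have hM1 : (R + C) / c ≤ M := by rw [hM]; exact Nat.le_ceil _
  have hM2 : (M : ℝ) < (R + C) / c + 1 := by
    rw [hM]
    exact Nat.ceil_lt_add_one (by positivity)
  obtain ⟨I, hI⟩ : ∃ I : Finset ℤ, I = Finset.Icc (-(M : ℤ)) M := ⟨_, rfl⟩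
  have hIc : (I.card : ℝ) ≤ (2 * ((1 + C) / c) + 3) * R := by
    have h1 : I.card = 2 * M + 1 := by
      rw [hI, Int.card_Icc]
      omega
    have h2 : (R + C) / c ≤ (1 + C) / c * R := by
      rw [div_mul_eq_mul_div]
      refine div_le_div_of_nonneg_right ?_ hc.le
      nlinarith
    rw [h1]
    push_cast
    nlinarith
  have hin : ∀ z : V, μ (em z) ≤ R + C → z.1 ∈ I ∧ z.2 ∈ I := by
    intro z hz
    have h1 := (hcC (em z)).1
    have h2 : max |(z.1 : ℝ)| |(z.2 : ℝ)| ≤ M := by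
      refine le_trans ?_ hM1
      rw [le_div_iff₀ hc, mul_comm]
      exact h1.trans hz
    have h3 : |(z.1 : ℝ)| ≤ M := (le_max_left _ _).trans h2
    have h4 : |(z.2 : ℝ)| ≤ M := (le_max_right _ _).trans h2
    rw [abs_le] at h3 h4
    rw [hI, Finset.mem_Icc, Finset.mem_Icc]
    refine ⟨⟨?_, ?_⟩, ?_, ?_⟩
    · exact_mod_cast h3.1
    · exact_mod_cast h3.2
    · exact_mod_cast h4.1
    · exact_mod_cast h4.2
  -- the four parts of the boundary
  obtain ⟨P, hP⟩ : ∃ P : (V → V) → Finset V, P = fun τ => (I ×ˢ I).filter fun z : V =>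
      R < μ (em z) ∧ μ (em z) ≤ R + C ∧ μ (em (τ z)) ≤ R := ⟨_, rfl⟩
  have hPm : ∀ τ z, z ∈ P τ ↔ (z.1 ∈ I ∧ z.2 ∈ I) ∧
      (R < μ (em z) ∧ μ (em z) ≤ R + C ∧ μ (em (τ z)) ≤ R) := by
    intro τ z
    rw [hP]
    simp [Finset.mem_filter, Finset.mem_product]
  have k1 : (P (fun z => (z.1 + 1, z.2))).card ≤ I.card := by
    refine Finset.card_le_card_of_injOn (fun z => z.2) (fun z hz => ((hPm _ z).1 hz).1.2) ?_
    rintro ⟨i, j⟩ hz ⟨i', j'⟩ hz' hjj
    have hj : j = j' := hjj
    subst hj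
    have q := ((hPm _ _).1 (Finset.mem_coe.1 hz)).2
    have q' := ((hPm _ _).1 (Finset.mem_coe.1 hz')).2
    simp only at q q'
    rcases lt_trichotomy i i' with h | h | h
    · have := row_max μ (i0 := i + 1) (i := i') (i1 := i' + 1) (j := j) (by omega) (by omega)
      have := this.trans (max_le q.2.2 q'.2.2)
      linarith [q'.1]
    · rw [h]
    · have := row_max μ (i0 := i' + 1) (i := i) (i1 := i + 1) (j := j) (by omega) (by omega)
      have := this.trans (max_le q'.2.2 q.2.2)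
      linarith [q.1]
  have k2 : (P (fun z => (z.1 - 1, z.2))).card ≤ I.card := by
    refine Finset.card_le_card_of_injOn (fun z => z.2) (fun z hz => ((hPm _ z).1 hz).1.2) ?_
    rintro ⟨i, j⟩ hz ⟨i', j'⟩ hz' hjj
    have hj : j = j' := hjj
    subst hj
    have q := ((hPm _ _).1 (Finset.mem_coe.1 hz)).2
    have q' := ((hPm _ _).1 (Finset.mem_coe.1 hz')).2
    simp only at q q'
    rcases lt_trichotomy i i' with h | h | h
    · have := row_max μ (i0 := i - 1) (i := i) (i1 := i' - 1) (j := j) (by omega) (by omega)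
      have := this.trans (max_le q.2.2 q'.2.2)
      linarith [q.1]
    · rw [h]
    · have := row_max μ (i0 := i' - 1) (i := i') (i1 := i - 1) (j := j) (by omega) (by omega)
      have := this.trans (max_le q'.2.2 q.2.2)
      linarith [q'.1]
  have k3 : (P (fun z => (z.1, z.2 + 1))).card ≤ I.card := by
    refine Finset.card_le_card_of_injOn (fun z => z.1) (fun z hz => ((hPm _ z).1 hz).1.1) ?_
    rintro ⟨j, i⟩ hz ⟨j', i'⟩ hz' hjj
    have hj : j = j' := hjj
    subst hj
    have q := ((hPm _ _).1 (Finset.mem_coe.1 hz)).2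
    have q' := ((hPm _ _).1 (Finset.mem_coe.1 hz')).2
    simp only at q q'
    rcases lt_trichotomy i i' with h | h | h
    · have := col_max μ (i0 := i + 1) (i := i') (i1 := i' + 1) (j := j) (by omega) (by omega)
      have := this.trans (max_le q.2.2 q'.2.2)
      linarith [q'.1]
    · rw [h]
    · have := col_max μ (i0 := i' + 1) (i := i) (i1 := i + 1) (j := j) (by omega) (by omega)
      have := this.trans (max_le q'.2.2 q.2.2)
      linarith [q.1]
  have k4 : (P (fun z => (z.1, z.2 - 1))).card ≤ I.card := by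
    refine Finset.card_le_card_of_injOn (fun z => z.1) (fun z hz => ((hPm _ z).1 hz).1.1) ?_
    rintro ⟨j, i⟩ hz ⟨j', i'⟩ hz' hjj
    have hj : j = j' := hjj
    subst hj
    have q := ((hPm _ _).1 (Finset.mem_coe.1 hz)).2
    have q' := ((hPm _ _).1 (Finset.mem_coe.1 hz')).2
    simp only at q q'
    rcases lt_trichotomy i i' with h | h | h
    · have := col_max μ (i0 := i - 1) (i := i) (i1 := i' - 1) (j := j) (by omega) (by omega)
      have := this.trans (max_le q.2.2 q'.2.2)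
      linarith [q.1]
    · rw [h]
    · have := col_max μ (i0 := i' - 1) (i := i') (i1 := i - 1) (j := j) (by omega) (by omega)
      have := this.trans (max_le q'.2.2 q.2.2)
      linarith [q'.1]
  obtain ⟨D, hD⟩ : ∃ D : Finset V, D = (P (fun z => (z.1 + 1, z.2)) ∪ P (fun z => (z.1 - 1, z.2))) ∪
      (P (fun z => (z.1, z.2 + 1)) ∪ P (fun z => (z.1, z.2 - 1))) := ⟨_, rfl⟩
  refine ⟨D, ?_, ?_, ?_⟩
  · intro a ha b hb hab
    have ha' : μ (em a) ≤ R := ha
    have hb' : R < μ (em b) := not_le.1 hb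
    have h1 : μ (em b) ≤ R + C := by
      have e : em b = em a + em (b - a) := by rw [em_sub]; abel
      have h2 : μ (em (b - a)) ≤ C := by
        refine ((hcC _).2).trans ?_
        have h3 : max |(em (b - a)).1| |(em (b - a)).2| ≤ 1 := by
          have h4 : |b.1 - a.1| + |b.2 - a.2| = 1 := hab
          have h5 : |b.1 - a.1| ≤ 1 := by have := abs_nonneg (b.2 - a.2); omega
          have h6 : |b.2 - a.2| ≤ 1 := by have := abs_nonneg (b.1 - a.1); omega
          refine max_le ?_ ?_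
          · show |(((b - a).1 : ℤ) : ℝ)| ≤ 1
            rw [← Int.cast_abs]
            exact_mod_cast h5
          · show |(((b - a).2 : ℤ) : ℝ)| ≤ 1
            rw [← Int.cast_abs]
            exact_mod_cast h6
        nlinarith
      rw [e]
      exact (map_add_le_add μ _ _).trans (add_le_add ha' h2)
    have hbI := hin b h1
    rw [hD, Finset.mem_union, Finset.mem_union, Finset.mem_union]
    rcases nb_cases hab with h | h | h | h
    · exact Or.inl (Or.inl ((hPm _ b).2 ⟨hbI, hb', h1, by rw [← h]; exact ha'⟩))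
    · exact Or.inl (Or.inr ((hPm _ b).2 ⟨hbI, hb', h1, by rw [← h]; exact ha'⟩))
    · exact Or.inr (Or.inl ((hPm _ b).2 ⟨hbI, hb', h1, by rw [← h]; exact ha'⟩))
    · exact Or.inr (Or.inr ((hPm _ b).2 ⟨hbI, hb', h1, by rw [← h]; exact ha'⟩))
  · intro z hz
    rw [hD, Finset.mem_union, Finset.mem_union, Finset.mem_union] at hz
    rcases hz with (h | h) | (h | h)
    all_goals exact ⟨((hPm _ z).1 h).2.1, ((hPm _ z).1 h).2.2.1⟩
  · have h1 : D.card ≤ 4 * I.card := by
      rw [hD]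
      have := Finset.card_union_le (P (fun z => (z.1 + 1, z.2)) ∪ P (fun z => (z.1 - 1, z.2)))
        (P (fun z => (z.1, z.2 + 1)) ∪ P (fun z => (z.1, z.2 - 1)))
      have := Finset.card_union_le (P (fun z => (z.1 + 1, z.2))) (P (fun z => (z.1 - 1, z.2)))
      have := Finset.card_union_le (P (fun z => (z.1, z.2 + 1))) (P (fun z => (z.1, z.2 - 1)))
      omega
    calc (D.card : ℝ) ≤ 4 * (I.card : ℝ) := by exact_mod_cast h1
      _ ≤ 4 * ((2 * ((1 + C) / c) + 3) * R) := by linarith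
      _ = _ := by ring

end Pool.Agent.U874.FP
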