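import Pool.Agent.U874.FP.Boot

/-!
# Lower tails, the outer event and the rate function
-/

set_option autoImplicit false
open MeasureTheory ProbabilityTheory Filter Set
open scoped ENNReal Topology Pointwise

namespace Pool.Agent.U874.FP

open Pool.Agent.N662.FP

set_option linter.unusedSectionVars false

variable {Ω : Type} [MeasureSpace Ω] [IsProbabilityMeasure (volume : Measure Ω)]
  {X : Sym2 (ℤ × ℤ) → Ω → ℝ}

/-- the outer event: the fattened cluster is not contained in `(1 + t ^ (-κ)) t` times the limit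
shape -/
def Esc (T : Ω → ℤ × ℤ → ℝ) (μ : Seminorm ℝ (ℝ × ℝ)) (κ t : ℝ) : Set Ω :=
  {ω | ¬ (Fat (T ω) t ⊆ ((1 + t ^ (-κ)) * t) • {x : ℝ × ℝ | μ x ≤ 1})}

/-- the lower tails of order `1 / κ` -/
def Low (T : Ω → ℤ × ℤ → ℝ) (μ : Seminorm ℝ (ℝ × ℝ)) (κ c : ℝ) : Prop :=
  ∀ (v : ℤ × ℤ) (ε : ℝ), 0 ≤ ε → ε ≤ 1 →
    (volume : Measure Ω).real {ω | T ω v ≤ (1 - ε) * μ (em v)} ≤
      Real.exp (-(c * μ (em v) * ε ^ (1 / κ)))

theorem chernoff (hX : Iid X) {lam : ℝ} (hl : 0 ≤ lam) (v : V) (s : ℝ) :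
    (volume : Measure Ω) {ω | D (env X ω) 0 v ≤ s} ≤
      ENNReal.ofReal (Real.exp (lam * s)) * phi X lam v 0 := by
  have h1 := mul_meas_ge_le_lintegral (μ := (volume : Measure Ω)) (meas_W hX lam v 0) (ex lam s)
  have h2 : (volume : Measure Ω) {ω | D (env X ω) 0 v ≤ s} ≤
      (volume : Measure Ω) {ω | ex lam s ≤ W lam v 0 (env X ω)} := by
    refine measure_mono_ae ?_
    filter_upwards [cAE Ω X hX] with ω hω h
    show ex lam s ≤ W lam v 0 (env X ω)
    rw [W_eq cGE hl hω]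
    exact ex_anti hl h
  have h3 : ENNReal.ofReal (Real.exp (lam * s)) * ex lam s = 1 := by
    unfold ex
    rw [← ENNReal.ofReal_mul (Real.exp_pos _).le, ← Real.exp_add, add_neg_cancel, Real.exp_zero,
      ENNReal.ofReal_one]
  calc (volume : Measure Ω) {ω | D (env X ω) 0 v ≤ s}
      = (ENNReal.ofReal (Real.exp (lam * s)) * ex lam s) *
          (volume : Measure Ω) {ω | D (env X ω) 0 v ≤ s} := by rw [h3, one_mul]
    _ = ENNReal.ofReal (Real.exp (lam * s)) *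
          (ex lam s * (volume : Measure Ω) {ω | D (env X ω) 0 v ≤ s}) := mul_assoc _ _ _
    _ ≤ ENNReal.ofReal (Real.exp (lam * s)) *
          (ex lam s * (volume : Measure Ω) {ω | ex lam s ≤ W lam v 0 (env X ω)}) := by gcongr
    _ ≤ _ := by
        gcongr
        exact h1

theorem low_of_boot (hX : Iid X) (μ : Seminorm ℝ (ℝ × ℝ)) {κ' a : ℝ} (h0 : 0 < κ') (h1 : κ' < 1)
    (ha : a = 1 / (1 - κ')) (h : ∃ C0 : ℝ, 0 < C0 ∧ ∀ lam : ℝ, 0 < lam → ∀ w : V,
      phi X lam w 0 ≤ ENNReal.ofReal (Real.exp (-((lam - C0 * lam ^ a) * μ (em w))))) :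
    ∃ c : ℝ, 0 < c ∧ Low (fun ω v => D (env X ω) 0 v) μ κ' c := by
  obtain ⟨C0, hC0, h⟩ := h
  have hk1 : 0 < 1 - κ' := by linarith
  have ha1 : 1 < a := by
    rw [ha, lt_div_iff₀ hk1]
    linarith
  obtain ⟨s, hs⟩ : ∃ s : ℝ, s = (1 / (2 * C0)) ^ (1 / (a - 1)) := ⟨_, rfl⟩
  have hs0 : 0 < s := by rw [hs]; positivity
  have hs1 : C0 * s ^ a = s / 2 := by
    have g1 : s ^ (a - 1) = 1 / (2 * C0) := by
      rw [hs, ← Real.rpow_mul (by positivity)]
      have : 1 / (a - 1) * (a - 1) = 1 := by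
        have : a - 1 ≠ 0 := by linarith
        field_simp
      rw [this, Real.rpow_one]
    have g2 : s ^ a = s ^ (a - 1) * s := by
      rw [← Real.rpow_add_one hs0.ne']
      congr 1
      ring
    rw [g2, g1]
    field_simp
  refine ⟨s / 2, by positivity, fun v ε he0 he1 => ?_⟩
  have hM : 0 ≤ μ (em v) := apply_nonneg μ _
  rcases eq_or_lt_of_le he0 with he | he
  · rw [← he, Real.zero_rpow (by positivity), mul_zero, neg_zero, Real.exp_zero]
    exact measureReal_le_one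
  obtain ⟨lam, hlam⟩ : ∃ lam : ℝ, lam = s * ε ^ ((1 - κ') / κ') := ⟨_, rfl⟩
  have hl : 0 < lam := by rw [hlam]; positivity
  have e1 : lam * ε = s * ε ^ (1 / κ') := by
    rw [hlam, mul_assoc, ← Real.rpow_add_one he.ne']
    congr 2
    field_simp
    ring
  have e2 : C0 * lam ^ a = s / 2 * ε ^ (1 / κ') := by
    rw [hlam, Real.mul_rpow hs0.le (by positivity), ← Real.rpow_mul he.le, ← mul_assoc, hs1]
    congr 2
    rw [ha]
    field_simp
  have key := chernoff hX hl.le v ((1 - ε) * μ (em v))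
  have h4 : (volume : Measure Ω) {ω | D (env X ω) 0 v ≤ (1 - ε) * μ (em v)} ≤
      ENNReal.ofReal (Real.exp (-(s / 2 * μ (em v) * ε ^ (1 / κ')))) := by
    refine key.trans ((mul_le_mul' le_rfl (h lam hl v)).trans ?_)
    rw [← ENNReal.ofReal_mul (Real.exp_pos _).le, ← Real.exp_add]
    refine ENNReal.ofReal_le_ofReal (Real.exp_le_exp.2 (le_of_eq ?_))
    have : lam * ((1 - ε) * μ (em v)) + -((lam - C0 * lam ^ a) * μ (em v)) =
        -(lam * ε - C0 * lam ^ a) * μ (em v) := by ring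
    rw [this, e1, e2]
    ring
  exact ENNReal.toReal_le_of_le_ofReal (Real.exp_pos _).le h4

/-! ### from lower tails to the outer event -/

theorem summ_int : Summable fun n : ℤ => 1 / (1 + |(n : ℝ)|) ^ 2 := by
  have h := Real.summable_abs_int_rpow (b := 2) (by norm_num)
  refine Summable.of_norm_bounded_eventually h ?_
  have hfin : ({0} : Set ℤ).Finite := Set.finite_singleton 0
  filter_upwards [hfin.compl_mem_cofinite] with n hn
  have hn' : n ≠ 0 := hn
  have h1 : 0 < |(n : ℝ)| := abs_pos.2 (by exact_mod_cast hn')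
  rw [Real.norm_of_nonneg (by positivity), Real.rpow_neg h1.le, ← one_div]
  refine one_div_le_one_div_of_le (by positivity) ?_
  rw [show ((2 : ℝ)) = ((2 : ℕ) : ℝ) by norm_num, Real.rpow_natCast]
  exact pow_le_pow_left₀ h1.le (by linarith) 2

theorem exp_pow (b δ : ℝ) (hb : 0 < b) (hδ : 0 < δ) : ∃ A : ℝ, 0 < A ∧ ∀ x : ℝ, 0 ≤ x →
    Real.exp (-(b * x ^ δ)) * (1 + x) ^ 4 ≤ A := by
  obtain ⟨m, hm⟩ := exists_nat_gt (4 / δ)
  have hm' : 4 ≤ δ * m := by
    rw [div_lt_iff₀ hδ] at hm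
    linarith
  refine ⟨16 * (1 + m.factorial / b ^ m), by positivity, fun x hx => ?_⟩
  have hf : (0 : ℝ) < m.factorial := by exact_mod_cast Nat.factorial_pos m
  rcases le_total x 1 with h | h
  · have h1 : Real.exp (-(b * x ^ δ)) ≤ 1 := by
      rw [Real.exp_le_one_iff]
      have : 0 ≤ b * x ^ δ := by positivity
      linarith
    have h2 : (1 + x) ^ 4 ≤ 16 := by
      calc (1 + x) ^ 4 ≤ 2 ^ 4 := pow_le_pow_left₀ (by linarith) (by linarith) 4
        _ = 16 := by norm_num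
    have h3 : 0 ≤ m.factorial / b ^ m := by positivity
    nlinarith [Real.exp_pos (-(b * x ^ δ)), pow_nonneg (show (0:ℝ) ≤ 1 + x by linarith) 4]
  · have hx0 : 0 < x := by linarith
    have h1 : (b * x ^ δ) ^ m / m.factorial ≤ Real.exp (b * x ^ δ) :=
      Real.pow_div_factorial_le_exp _ (by positivity) m
    have h2 : x ^ 4 ≤ (x ^ δ) ^ m := by
      rw [← Real.rpow_natCast (x ^ δ) m, ← Real.rpow_mul hx0.le,
        ← Real.rpow_natCast x 4]
      refine Real.rpow_le_rpow_of_exponent_le h ?_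
      exact_mod_cast hm'
    have h3 : Real.exp (-(b * x ^ δ)) * x ^ 4 ≤ m.factorial / b ^ m := by
      rw [Real.exp_neg, ← div_eq_inv_mul, div_le_div_iff₀ (Real.exp_pos _) (by positivity)]
      have h4 : (b * x ^ δ) ^ m ≤ m.factorial * Real.exp (b * x ^ δ) := by
        rw [div_le_iff₀ hf] at h1
        linarith
      calc x ^ 4 * b ^ m ≤ (x ^ δ) ^ m * b ^ m := by gcongr
        _ = (b * x ^ δ) ^ m := by rw [mul_pow, mul_comm]
        _ ≤ _ := h4
    have h5 : (1 + x) ^ 4 ≤ 16 * x ^ 4 := by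
      calc (1 + x) ^ 4 ≤ (2 * x) ^ 4 := pow_le_pow_left₀ (by linarith) (by linarith) 4
        _ = 16 * x ^ 4 := by ring
    calc Real.exp (-(b * x ^ δ)) * (1 + x) ^ 4
        ≤ Real.exp (-(b * x ^ δ)) * (16 * x ^ 4) := by gcongr
      _ = 16 * (Real.exp (-(b * x ^ δ)) * x ^ 4) := by ring
      _ ≤ 16 * (1 + m.factorial / b ^ m) := by linarith

theorem summ (μ : Seminorm ℝ (ℝ × ℝ)) (hμ : ∀ x, μ x = 0 → x = 0) (b δ : ℝ) (hb : 0 < b)
    (hδ : 0 < δ) : Summable fun v : V => Real.exp (-(b * μ (em v) ^ δ)) := by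
  obtain ⟨c, C, hc, hC, hcC⟩ := cNORM μ hμ
  obtain ⟨A, hA, hAx⟩ := exp_pow b δ hb hδ
  have h := summ_int.mul_of_nonneg summ_int (fun n => by positivity) (fun n => by positivity)
  refine Summable.of_nonneg_of_le (fun v => (Real.exp_pos _).le) (fun v => ?_)
    (h.mul_left (A * (1 + 1 / c) ^ 4))
  have hM : 0 ≤ μ (em v) := apply_nonneg μ _
  have h1 := hAx (μ (em v)) hM
  have h2 : max |(v.1 : ℝ)| |(v.2 : ℝ)| ≤ μ (em v) / c := by
    rw [le_div_iff₀ hc, mul_comm]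
    exact (hcC (em v)).1
  have h3 : 1 + |(v.1 : ℝ)| ≤ (1 + 1 / c) * (1 + μ (em v)) := by
    have := (le_max_left |(v.1 : ℝ)| |(v.2 : ℝ)|).trans h2
    have e : (1 + 1 / c) * (1 + μ (em v)) = 1 + 1 / c + μ (em v) + μ (em v) / c := by ring
    rw [e]
    have : 0 < 1 / c := by positivity
    linarith
  have h4 : 1 + |(v.2 : ℝ)| ≤ (1 + 1 / c) * (1 + μ (em v)) := by
    have := (le_max_right |(v.1 : ℝ)| |(v.2 : ℝ)|).trans h2
    have e : (1 + 1 / c) * (1 + μ (em v)) = 1 + 1 / c + μ (em v) + μ (em v) / c := by ring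
    rw [e]
    have : 0 < 1 / c := by positivity
    linarith
  have h5 : (1 + |(v.1 : ℝ)|) ^ 2 * (1 + |(v.2 : ℝ)|) ^ 2 ≤ (1 + 1 / c) ^ 4 * (1 + μ (em v)) ^ 4 := by
    calc (1 + |(v.1 : ℝ)|) ^ 2 * (1 + |(v.2 : ℝ)|) ^ 2
        ≤ ((1 + 1 / c) * (1 + μ (em v))) ^ 2 * ((1 + 1 / c) * (1 + μ (em v))) ^ 2 := by gcongr
      _ = _ := by ring
  have e : A * (1 + 1 / c) ^ 4 * (1 / (1 + |(v.1 : ℝ)|) ^ 2 * (1 / (1 + |(v.2 : ℝ)|) ^ 2)) =
      A * (1 + 1 / c) ^ 4 / ((1 + |(v.1 : ℝ)|) ^ 2 * (1 + |(v.2 : ℝ)|) ^ 2) := by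
    field_simp
  rw [e, le_div_iff₀ (by positivity)]
  calc Real.exp (-(b * μ (em v) ^ δ)) * ((1 + |(v.1 : ℝ)|) ^ 2 * (1 + |(v.2 : ℝ)|) ^ 2)
      ≤ Real.exp (-(b * μ (em v) ^ δ)) * ((1 + 1 / c) ^ 4 * (1 + μ (em v)) ^ 4) := by gcongr
    _ = (1 + 1 / c) ^ 4 * (Real.exp (-(b * μ (em v) ^ δ)) * (1 + μ (em v)) ^ 4) := by ring
    _ ≤ (1 + 1 / c) ^ 4 * A := by gcongr
    _ = A * (1 + 1 / c) ^ 4 := mul_comm _ _

/-- covering of the outer event -/
theorem esc_cover (μ : Seminorm ℝ (ℝ × ℝ)) (hμ : ∀ x, μ x = 0 → x = 0) : ∃ C : ℝ, 0 < C ∧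
    ∀ (T : Ω → ℤ × ℤ → ℝ) (κ t : ℝ), 0 < t → Esc T μ κ t ⊆
      ⋃ v : V, {ω | t + t ^ (1 - κ) - C < μ (em v) ∧ T ω v ≤ t} := by
  obtain ⟨c, C, hc, hC, hcC⟩ := cNORM μ hμ
  refine ⟨C, hC, fun T κ t ht ω hω => ?_⟩
  have hs : 0 < (1 + t ^ (-κ)) * t := by positivity
  have hω' : ¬ (Fat (T ω) t ⊆ ((1 + t ^ (-κ)) * t) • {x : ℝ × ℝ | μ x ≤ 1}) := hω
  rw [Set.not_subset] at hω'
  obtain ⟨x, ⟨v, hv, hx1, hx2⟩, hx⟩ := hω'
  refine Set.mem_iUnion.2 ⟨v, ?_, hv⟩
  have h1 : (1 + t ^ (-κ)) * t < μ x := by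
    by_contra h
    refine hx ((Set.mem_smul_set_iff_inv_smul_mem₀ hs.ne' _ _).2 ?_)
    show μ (((1 + t ^ (-κ)) * t)⁻¹ • x) ≤ 1
    rw [map_smul_eq_mul, Real.norm_of_nonneg (inv_nonneg.2 hs.le), ← div_eq_inv_mul,
      div_le_one hs]
    exact not_lt.1 h
  have h2 : (1 + t ^ (-κ)) * t = t + t ^ (1 - κ) := by
    rw [show (1 : ℝ) - κ = -κ + 1 by ring, Real.rpow_add ht, Real.rpow_one]
    ring
  have h3 : μ x ≤ μ (em v) + C := by
    have e : x = em v + (x - em v) := by abel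
    have h4 : μ (x - em v) ≤ C := by
      refine ((hcC _).2).trans ?_
      have h5 : max |(x - em v).1| |(x - em v).2| ≤ 1 := by
        refine max_le ?_ ?_
        · show |x.1 - (v.1 : ℝ)| ≤ 1
          linarith
        · show |x.2 - (v.2 : ℝ)| ≤ 1
          linarith
      nlinarith
    calc μ x = μ (em v + (x - em v)) := by rw [← e]
      _ ≤ μ (em v) + μ (x - em v) := map_add_le_add μ _ _
      _ ≤ _ := by linarith
  rw [h2] at h1
  linarith

theorem esc_of_low (μ : Seminorm ℝ (ℝ × ℝ)) (hμ : ∀ x, μ x = 0 → x = 0) {T : Ω → ℤ × ℤ → ℝ}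
    {κ κ' c : ℝ} (h0 : 0 < κ) (h1 : κ < κ') (h2 : κ' < 1) (hc : 0 < c) (hL : Low T μ κ' c) :
    ∃ b : ℝ, 0 < b ∧ ∀ᶠ t : ℝ in atTop,
      (volume : Measure Ω).real (Esc T μ κ t) ≤ Real.exp (-(t ^ b)) := by
  obtain ⟨C, hC, hcov⟩ := esc_cover (Ω := Ω) μ hμ
  have h0' : 0 < κ' := h0.trans h1
  obtain ⟨p, hp⟩ : ∃ p : ℝ, p = 1 / κ' := ⟨_, rfl⟩
  have hp0 : 0 < p := by rw [hp]; positivity
  obtain ⟨δ, hδ⟩ : ∃ δ : ℝ, δ = 1 - κ * p := ⟨_, rfl⟩
  have hδ0 : 0 < δ := by
    rw [hδ, hp, mul_one_div, sub_pos, div_lt_one h0']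
    exact h1
  obtain ⟨b, hb⟩ : ∃ b : ℝ, b = c * (1 / 4) ^ p / 2 := ⟨_, rfl⟩
  have hb0 : 0 < b := by rw [hb]; positivity
  have hS := summ μ hμ b δ hb0 hδ0
  obtain ⟨S, hSd⟩ : ∃ S : ℝ, S = ∑' v : V, Real.exp (-(b * μ (em v) ^ δ)) := ⟨_, rfl⟩
  have hS0 : 0 ≤ S := by rw [hSd]; exact tsum_nonneg fun v => (Real.exp_pos _).le
  refine ⟨δ / 2, by positivity, ?_⟩
  -- the final comparison
  have ev1 : ∀ᶠ t : ℝ in atTop, Real.exp (-(b * t ^ δ)) * S ≤ Real.exp (-(t ^ (δ / 2))) := by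
    have t1 : Tendsto (fun t : ℝ => t ^ (δ / 2)) atTop atTop := tendsto_rpow_atTop (by positivity)
    have t2 : Tendsto (fun x : ℝ => b * x ^ 2 - x) atTop atTop := by
      have e : (fun x : ℝ => b * x ^ 2 - x) = fun x => x * (b * x - 1) := by funext x; ring
      rw [e]
      refine tendsto_id.atTop_mul_atTop₀ ?_
      exact tendsto_atTop_add_const_right _ _ (tendsto_id.const_mul_atTop hb0)
    filter_upwards [(t2.comp t1).eventually_ge_atTop (Real.log (S + 1)),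
      eventually_gt_atTop (0 : ℝ)] with t ht ht0
    have g1 : Real.log (S + 1) ≤ b * t ^ δ - t ^ (δ / 2) := by
      have h3 : Real.log (S + 1) ≤ b * (t ^ (δ / 2)) ^ 2 - t ^ (δ / 2) := ht
      have e : (t ^ (δ / 2)) ^ 2 = t ^ δ := by
        rw [← Real.rpow_natCast, ← Real.rpow_mul ht0.le]
        congr 1
        push_cast
        ring
      rwa [e] at h3
    have g2 : S ≤ Real.exp (b * t ^ δ - t ^ (δ / 2)) := by
      have := (Real.log_le_iff_le_exp (by linarith : 0 < S + 1)).1 g1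
      linarith
    calc Real.exp (-(b * t ^ δ)) * S
        ≤ Real.exp (-(b * t ^ δ)) * Real.exp (b * t ^ δ - t ^ (δ / 2)) := by gcongr
      _ = Real.exp (-(t ^ (δ / 2))) := by
          rw [← Real.exp_add]
          congr 1
          ring
  have ev2 : ∀ᶠ t : ℝ in atTop, C ≤ t ^ (1 - κ) / 2 := by
    have t1 : Tendsto (fun t : ℝ => t ^ (1 - κ)) atTop atTop := tendsto_rpow_atTop (by linarith)
    filter_upwards [t1.eventually_ge_atTop (2 * C)] with t ht
    linarith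
  filter_upwards [ev1, ev2, eventually_ge_atTop (1 : ℝ)] with t g1 g2 g3
  have ht0 : 0 < t := by linarith
  have hpt : ∀ v : V, (volume : Measure Ω) {ω | t + t ^ (1 - κ) - C < μ (em v) ∧ T ω v ≤ t} ≤
      ENNReal.ofReal (Real.exp (-(b * t ^ δ)) * Real.exp (-(b * μ (em v) ^ δ))) := by
    intro v
    by_cases hv : t + t ^ (1 - κ) - C < μ (em v)
    · obtain ⟨M, hM⟩ : ∃ M : ℝ, M = μ (em v) := ⟨_, rfl⟩
      rw [← hM] at hv ⊢
      have hMt : t + t ^ (1 - κ) / 2 < M := by linarith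
      have htk : 0 < t ^ (1 - κ) := Real.rpow_pos_of_pos ht0 _
      have hM0 : 0 < M := by linarith
      have hM1 : 1 ≤ M := by linarith
      have hlow := hL v (1 - t / M) (by rw [sub_nonneg, div_le_one hM0]; linarith)
        (by have : 0 < t / M := by positivity
            linarith)
      rw [← hM] at hlow
      have e1 : (1 - (1 - t / M)) * M = t := by field_simp; ring
      rw [e1] at hlow
      have hε : M ^ (-κ) * (1 / 4) ≤ 1 - t / M := by
        rcases le_total M (2 * t) with h3 | h3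
        · have h4 : M ^ (1 - κ) / 4 ≤ M - t := by
            have h5 : (M / 2) ^ (1 - κ) ≤ t ^ (1 - κ) :=
              Real.rpow_le_rpow (by positivity) (by linarith) (by linarith)
            have h6 : M ^ (1 - κ) / 2 ≤ (M / 2) ^ (1 - κ) := by
              rw [Real.div_rpow hM0.le (by norm_num)]
              refine div_le_div_of_nonneg_left (by positivity) (by positivity) ?_
              calc (2 : ℝ) ^ (1 - κ) ≤ 2 ^ (1 : ℝ) :=
                    Real.rpow_le_rpow_of_exponent_le (by norm_num) (by linarith)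
                _ = 2 := Real.rpow_one _
            linarith
          have h7 : M ^ (1 - κ) = M ^ (-κ) * M := by
            rw [← Real.rpow_add_one hM0.ne']
            congr 1
            ring
          rw [h7] at h4
          have h8 : 1 - t / M = (M - t) / M := by field_simp
          rw [h8, le_div_iff₀ hM0]
          linarith
        · have h4 : M ^ (-κ) ≤ 1 := Real.rpow_le_one_of_one_le_of_nonpos hM1 (by linarith)
          have h5 : t / M ≤ 1 / 2 := by
            rw [div_le_div_iff₀ hM0 (by norm_num)]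
            linarith
          linarith
      have h9 : (1 / 4 : ℝ) ^ p * M ^ δ ≤ M * (1 - t / M) ^ (1 / κ') := by
        have h10 : (M ^ (-κ) * (1 / 4)) ^ p ≤ (1 - t / M) ^ p :=
          Real.rpow_le_rpow (by positivity) hε hp0.le
        rw [Real.mul_rpow (by positivity) (by norm_num), ← Real.rpow_mul hM0.le] at h10
        rw [← hp]
        calc (1 / 4 : ℝ) ^ p * M ^ δ = M * (M ^ (-κ * p) * (1 / 4) ^ p) := by
              have : M ^ δ = M * M ^ (-κ * p) := by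
                rw [hδ, show (1 : ℝ) - κ * p = 1 + -κ * p by ring, Real.rpow_add hM0,
                  Real.rpow_one]
              rw [this]
              ring
          _ ≤ _ := by gcongr
      have h11 : t ^ δ ≤ M ^ δ := Real.rpow_le_rpow ht0.le (by linarith) hδ0.le
      have hbb : c * ((1 / 4 : ℝ) ^ p * M ^ δ) = b * M ^ δ + b * M ^ δ := by rw [hb]; ring
      have h12 : (volume : Measure Ω).real {ω | T ω v ≤ t} ≤
          Real.exp (-(b * t ^ δ)) * Real.exp (-(b * M ^ δ)) := by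
        refine hlow.trans ?_
        rw [← Real.exp_add, Real.exp_le_exp]
        have h13 : c * ((1 / 4 : ℝ) ^ p * M ^ δ) ≤ c * (M * (1 - t / M) ^ (1 / κ')) := by gcongr
        have h14 : b * t ^ δ ≤ b * M ^ δ := by gcongr
        rw [hbb] at h13
        nlinarith
      have hsub : {ω | t + t ^ (1 - κ) - C < M ∧ T ω v ≤ t} ⊆ {ω | T ω v ≤ t} :=
        fun ω hω => hω.2
      refine (measure_mono (μ := (volume : Measure Ω)) hsub).trans ?_
      rw [← ofReal_measureReal (μ := (volume : Measure Ω)) (s := {ω | T ω v ≤ t})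
        (measure_ne_top _ _)]
      exact ENNReal.ofReal_le_ofReal h12
    · have : {ω | t + t ^ (1 - κ) - C < μ (em v) ∧ T ω v ≤ t} = ∅ := by
        ext ω
        simp [hv]
      rw [this, measure_empty]
      exact zero_le
  have hfin : (volume : Measure Ω) (Esc T μ κ t) ≤ ENNReal.ofReal (Real.exp (-(t ^ (δ / 2)))) := by
    refine (measure_mono (hcov T κ t ht0)).trans ((measure_iUnion_le _).trans
      ((ENNReal.tsum_le_tsum hpt).trans ?_))
    rw [← ENNReal.ofReal_tsum_of_nonneg (fun v => by positivity) (hS.mul_left _), tsum_mul_left,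
      ← hSd]
    exact ENNReal.ofReal_le_ofReal g1
  exact ENNReal.toReal_le_of_le_ofReal (Real.exp_pos _).le hfin

end Pool.Agent.U874.FP
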