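import Pool.Agent.U874.FP.Prob

/-!
# Supermultiplicativity of the Laplace transforms and of the lower tails
-/

set_option autoImplicit false
open MeasureTheory ProbabilityTheory Filter Set
open scoped ENNReal Topology

namespace Pool.Agent.U874.FP

open Pool.Agent.N662.FP
open Pool.Agent.N390.FL.TI (sg sg_inj D_shift)

set_option linter.unusedSectionVars false

variable {Ω : Type} [MeasureSpace Ω] [IsProbabilityMeasure (volume : Measure Ω)]
  {X : Sym2 (ℤ × ℤ) → Ω → ℝ}

theorem cost_map (x : Sym2 V → ℝ) (a : V) : ∀ l : List V,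
    cost x (l.map (fun z => a + z)) = cost (fun e => x (sg a e)) l
  | [] => rfl
  | [_] => rfl
  | b :: c :: l => by
    rw [List.map_cons, List.map_cons, cost_cons, cost_cons, ← List.map_cons, cost_map x a (c :: l)]
    rfl

theorem Pa_map (a v : V) : ∀ l : List V, Pa v l → Pa (a + v) (l.map (fun z => a + z))
  | [], h => h
  | [b], h => by
    have h' : b = v := h
    show a + b = a + v
    rw [h']
  | b :: c :: l, h => by
    refine ⟨?_, Pa_map a v (c :: l) h.2⟩
    have h1 : |c.1 - b.1| + |c.2 - b.2| = 1 := h.1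
    show |(a + c).1 - (a + b).1| + |(a + c).2 - (a + b).2| = 1
    simpa using h1

theorem Su_shift_le (u : ℝ → ℝ≥0∞) (a v b : V) (x : Sym2 V → ℝ) :
    Su u v b (fun e => x (sg a e)) ≤ Su u (a + v) (a + b) x := by
  refine iSup₂_le fun l h => ?_
  rw [← cost_map x a (b :: l), List.map_cons]
  have h1 := Pa_map a v (b :: l) h
  rw [List.map_cons] at h1
  exact le_iSup₂_of_le (l.map (fun z => a + z)) h1 le_rfl

theorem Su_shift (u : ℝ → ℝ≥0∞) (a v b : V) (x : Sym2 V → ℝ) :
    Su u (a + v) (a + b) x = Su u v b (fun e => x (sg a e)) := by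
  refine le_antisymm ?_ (Su_shift_le u a v b x)
  have h1 := Su_shift_le u (-a) (a + v) (a + b) (fun e => x (sg a e))
  have h2 : (fun e => (fun e => x (sg a e)) (sg (-a) e)) = x := by
    funext e
    show x (sg a (sg (-a) e)) = x e
    congr 1
    unfold sg
    rw [Sym2.map_map]
    have : (fun z : ℤ × ℤ => a + z) ∘ (fun z => -a + z) = id := by
      funext z
      simp
    rw [this]
    simp
  rw [h2] at h1
  simpa using h1

theorem E_shift (hX : Iid X) {u : ℝ → ℝ≥0∞} (hu : Prof u) (a v : V) :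
    ∫⁻ ω, Su u (a + v) a (env X ω) ∂(volume : Measure Ω) =
      ∫⁻ ω, Su u v 0 (env X ω) ∂(volume : Measure Ω) := by
  have hm : Measurable fun x : Sym2 V → ℝ => Su u v 0 x := by
    have h1 := fun N => meas_sup' (Y := fun (e : Sym2 V) (x : Sym2 V → ℝ) => x e) hu (SN v 0 N)
      (fun e => measurable_pi_apply e)
    have h2 : (fun x : Sym2 V → ℝ => Su u v 0 x) = fun x => ⨆ N : ℕ, ⨆ l : List V,
        ⨆ _ : SN v 0 N l, u (cost (fun e => x e) l) := by
      funext x
      exact Su_eq u v 0 x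
    rw [h2]
    exact Measurable.iSup h1
  have e1 : ∫⁻ ω, Su u (a + v) a (env X ω) ∂(volume : Measure Ω) =
      ∫⁻ ω, Su u v 0 (fun e => X (sg a e) ω) ∂(volume : Measure Ω) := by
    refine lintegral_congr fun ω => ?_
    have h := Su_shift u a v 0 (env X ω)
    rw [add_zero] at h
    rw [h]
    rfl
  have e2 : ∫⁻ ω, Su u v 0 (env X ω) ∂(volume : Measure Ω) =
      ∫⁻ ω, Su u v 0 (fun e => X e ω) ∂(volume : Measure Ω) := rfl
  have m1 : Measurable (fun ω (e : Sym2 (ℤ × ℤ)) => X (sg a e) ω) :=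
    measurable_pi_iff.2 fun e => hX.meas _
  have m2 : Measurable (fun ω (e : Sym2 (ℤ × ℤ)) => X e ω) := measurable_pi_iff.2 fun e => hX.meas e
  have l1 : Measure.map (fun ω (e : Sym2 (ℤ × ℤ)) => X (sg a e) ω) (volume : Measure Ω) =
      Measure.infinitePi (fun _ : Sym2 (ℤ × ℤ) => expMeasure 1) := by
    have h3 : iIndepFun (fun e => X (sg a e)) (volume : Measure Ω) := hX.ind.precomp (sg_inj a)
    have h4 := (iIndepFun_iff_map_fun_eq_infinitePi_map (fun e => hX.meas (sg a e))).1 h3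
    rw [h4]
    congr 1
    funext e
    exact hX.law _
  have l2 : Measure.map (fun ω (e : Sym2 (ℤ × ℤ)) => X e ω) (volume : Measure Ω) =
      Measure.infinitePi (fun _ : Sym2 (ℤ × ℤ) => expMeasure 1) := by
    have h4 := (iIndepFun_iff_map_fun_eq_infinitePi_map hX.meas).1 hX.ind
    rw [h4]
    congr 1
    funext e
    exact hX.law _
  rw [e1, e2, ← lintegral_map hm m1, ← lintegral_map hm m2, l1, l2]

/-- abstract supermultiplicativity -/
theorem mult_step (hX : Iid X) {u u' u'' : ℝ → ℝ≥0∞} (hu : Prof u) (hu' : Prof u')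
    (h : ∀ (v w : V) (x : Sym2 V → ℝ), (∀ e, 0 ≤ x e) →
      Su u v 0 x * Su u' (v + w) v x ≤ Su u'' (v + w) 0 x) (v w : V) :
    (∫⁻ ω, Su u v 0 (env X ω) ∂(volume : Measure Ω)) *
      (∫⁻ ω, Su u' w 0 (env X ω) ∂(volume : Measure Ω)) ≤
    ∫⁻ ω, Su u'' (v + w) 0 (env X ω) ∂(volume : Measure Ω) := by
  rw [← E_shift hX hu' v w]
  refine (fkg hX hu hu' v 0 (v + w) v).trans (lintegral_mono_ae ?_)
  filter_upwards [cAE Ω X hX] with ω hω
  exact h v w _ hω

/-- Laplace transforms -/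
theorem phi_mult (hX : Iid X) {lam : ℝ} (hl : 0 ≤ lam) (v w : V) :
    phi X lam v 0 * phi X lam w 0 ≤ phi X lam (v + w) 0 := by
  refine mult_step hX (prof_ex hl) (prof_ex hl) (fun v w x hx => ?_) v w
  have h1 := W_eq cGE hl hx 0 v
  have h2 := W_eq cGE hl hx v (v + w)
  have h3 := W_eq cGE hl hx 0 (v + w)
  have e1 : Su (ex lam) v 0 x = ex lam (D x 0 v) := h1
  have e2 : Su (ex lam) (v + w) v x = ex lam (D x v (v + w)) := h2
  have e3 : Su (ex lam) (v + w) 0 x = ex lam (D x 0 (v + w)) := h3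
  rw [e1, e2, e3, ← ex_add]
  exact ex_anti hl (cTRI x hx 0 v (v + w))

theorem phi_pow (hX : Iid X) {lam : ℝ} (hl : 0 ≤ lam) (v : V) (n : ℕ) :
    (phi X lam v 0) ^ n ≤ phi X lam ((n : ℤ) • v) 0 := by
  induction n with
  | zero =>
    simp only [pow_zero, Nat.cast_zero, zero_smul]
    have h : ∀ ω, (1 : ℝ≥0∞) ≤ W lam 0 0 (env X ω) := by
      intro ω
      have h1 : Pa (0 : V) (0 :: []) := rfl
      have h2 := le_W (lam := lam) (x := env X ω) h1
      rwa [cost_one, ex_zero] at h2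
    calc (1 : ℝ≥0∞) = ∫⁻ _, 1 ∂(volume : Measure Ω) := by simp
      _ ≤ _ := lintegral_mono h
  | succ n ih =>
    rw [pow_succ]
    have e : ((n + 1 : ℕ) : ℤ) • v = (n : ℤ) • v + v := by push_cast; rw [add_smul, one_smul]
    rw [e]
    exact (mul_le_mul' ih le_rfl).trans (phi_mult hX hl _ v)

theorem Su_ind {x : Sym2 V → ℝ} (hx : ∀ e, 0 ≤ x e) (s : ℝ) (a v : V) :
    Su (fun t => (Set.Iio s).indicator (fun _ => (1 : ℝ≥0∞)) t) v a x =
      (Set.Iio s).indicator (fun _ => (1 : ℝ≥0∞)) (D x a v) := by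
  obtain ⟨hne, hbd, _, _⟩ := cGE x hx a v
  refine le_antisymm (iSup₂_le fun l h => ?_) ?_
  · exact (prof_ind s).anti (csInf_le hbd (fun_of_Pa x v l a h))
  · by_cases h : D x a v < s
    · obtain ⟨t, ⟨N, p, h0, h1, h2, h3⟩, ht⟩ := exists_lt_of_csInf_lt hne h
      obtain ⟨l, hl1, hl2⟩ := Pa_of_fun x v N a p h0 h1 h2
      have h4 : D x a v ∈ Set.Iio s := h
      have h5 : cost x (a :: l) ∈ Set.Iio s := by
        rw [hl2, ← h3]
        exact ht
      rw [Set.indicator_of_mem h4]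
      refine le_iSup₂_of_le l hl1 ?_
      simp only
      rw [Set.indicator_of_mem h5]
    · have h4 : D x a v ∉ Set.Iio s := h
      rw [Set.indicator_of_notMem h4]
      exact zero_le

theorem E_ind (hX : Iid X) (s : ℝ) (v : V) :
    ∫⁻ ω, Su (fun t => (Set.Iio s).indicator (fun _ => (1 : ℝ≥0∞)) t) v 0 (env X ω)
      ∂(volume : Measure Ω) = (volume : Measure Ω) {ω | D (env X ω) 0 v < s} := by
  have hm : Measurable fun ω => Su (fun t => (Set.Iio s).indicator (fun _ => (1 : ℝ≥0∞)) t) v 0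
      (env X ω) := by
    have h2 : (fun ω => Su (fun t => (Set.Iio s).indicator (fun _ => (1 : ℝ≥0∞)) t) v 0
        (env X ω)) = fun ω => ⨆ N : ℕ, ⨆ l : List V,
        ⨆ _ : SN v 0 N l, (fun t => (Set.Iio s).indicator (fun _ => (1 : ℝ≥0∞)) t)
          (cost (env X ω) l) := by
      funext ω
      exact Su_eq _ v 0 _
    rw [h2]
    exact Measurable.iSup fun N => meas_sup' (Y := X) (prof_ind s) _ fun e => hX.meas e
  have hae : (fun ω => Su (fun t => (Set.Iio s).indicator (fun _ => (1 : ℝ≥0∞)) t) v 0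
      (env X ω)) =ᵐ[(volume : Measure Ω)]
      ({ω | D (env X ω) 0 v < s} : Set Ω).indicator (fun _ => (1 : ℝ≥0∞)) := by
    filter_upwards [cAE Ω X hX] with ω hω
    rw [Su_ind hω]
    by_cases h : D (env X ω) 0 v < s
    · have h4 : D (env X ω) 0 v ∈ Set.Iio s := h
      have h5 : ω ∈ {ω | D (env X ω) 0 v < s} := h
      rw [Set.indicator_of_mem h4, Set.indicator_of_mem h5]
    · have h4 : D (env X ω) 0 v ∉ Set.Iio s := h
      have h5 : ω ∉ {ω | D (env X ω) 0 v < s} := h
      rw [Set.indicator_of_notMem h4, Set.indicator_of_notMem h5]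
  have hset : NullMeasurableSet {ω | D (env X ω) 0 v < s} (volume : Measure Ω) := by
    have h1 : AEMeasurable (fun ω => D (env X ω) 0 v) (volume : Measure Ω) :=
      (cINT Ω X hX 0 v).aestronglyMeasurable.aemeasurable
    exact nullMeasurableSet_lt h1 aemeasurable_const
  rw [lintegral_congr_ae hae]
  exact lintegral_indicator_one₀ hset

/-- lower tails -/
theorem tail_pow (hX : Iid X) (s : ℝ) (v : V) (n : ℕ) :
    ((volume : Measure Ω) {ω | D (env X ω) 0 v < s}) ^ (n + 1) ≤
      (volume : Measure Ω) {ω | D (env X ω) 0 (((n + 1 : ℕ) : ℤ) • v) < ((n + 1 : ℕ) : ℝ) * s} := by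
  induction n with
  | zero => simp
  | succ n ih =>
    rw [pow_succ]
    have e : ((n + 1 + 1 : ℕ) : ℤ) • v = ((n + 1 : ℕ) : ℤ) • v + v := by
      push_cast; rw [add_smul, one_smul]
    rw [e]
    refine (mul_le_mul' ih le_rfl).trans ?_
    rw [← E_ind hX, ← E_ind hX, ← E_ind hX]
    refine mult_step hX (prof_ind _) (prof_ind _) (fun v w x hx => ?_) _ v
    rw [Su_ind hx, Su_ind hx, Su_ind hx]
    by_cases h1 : D x 0 v < ((n + 1 : ℕ) : ℝ) * s
    · by_cases h2 : D x v (v + w) < s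
      · have h3 : D x 0 (v + w) ∈ Set.Iio (((n + 1 + 1 : ℕ) : ℝ) * s) := by
          show D x 0 (v + w) < _
          have := cTRI x hx 0 v (v + w)
          push_cast at h1 ⊢
          linarith
        rw [Set.indicator_of_mem h3]
        refine (mul_le_mul' ?_ ?_).trans (le_of_eq (one_mul 1))
        · exact Set.indicator_le_self' (fun _ _ => zero_le) _
        · exact Set.indicator_le_self' (fun _ _ => zero_le) _
      · have h4 : D x v (v + w) ∉ Set.Iio s := h2
        rw [Set.indicator_of_notMem h4, mul_zero]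
        exact zero_le
    · have h4 : D x 0 v ∉ Set.Iio (((n + 1 : ℕ) : ℝ) * s) := h1
      rw [Set.indicator_of_notMem h4, zero_mul]
      exact zero_le

end Pool.Agent.U874.FP
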