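import Pool.Agent.N662.FP.Stm

/-!
# Paths as lists, and the sup functionals of first-passage percolation

`W lam v a x` is the supremum of `exp (- lam * cost)` over the lattice paths from `a` to `v`; `Io` is
the same for the paths from `a` which stay in `B` until they leave it at the last step, and `Oo` for
the paths from `a` to `v` outside of `B`. The deterministic inequality `W_le` is behind the inequality
of Hammersley-Simon type for Laplace transforms.
-/

set_option autoImplicit false
open MeasureTheory ProbabilityTheory Filter Set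
open scoped ENNReal Topology

namespace Pool.Agent.U874.FP

open Pool.Agent.N662.FP

/-- lattice sites -/
abbrev V : Type := ℤ × ℤ

/-- nearest neighbours -/
def Nb (a b : V) : Prop := |b.1 - a.1| + |b.2 - a.2| = 1

/-- the edges of a list of sites -/
def edg : List V → List (Sym2 V)
  | [] => []
  | [_] => []
  | a :: b :: l => s(a, b) :: edg (b :: l)

/-- the passage time of a list of sites -/
def cost (x : Sym2 V → ℝ) (l : List V) : ℝ := ((edg l).map x).sum

/-- the list is a lattice path which ends at `v` -/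
def Pa (v : V) : List V → Prop
  | [] => False
  | [a] => a = v
  | a :: b :: l => Nb a b ∧ Pa v (b :: l)

/-- the list is a lattice path all of whose sites but the last one are in `B` -/
def Ex (B : Set V) : List V → Prop
  | [] => False
  | [a] => a ∉ B
  | a :: b :: l => a ∈ B ∧ Nb a b ∧ Ex B (b :: l)

/-- the list is a lattice path outside of `B` which ends at `v` -/
def Ou (B : Set V) (v : V) : List V → Prop
  | [] => False
  | [a] => a = v ∧ a ∉ B
  | a :: b :: l => a ∉ B ∧ Nb a b ∧ Ou B v (b :: l)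

/-- `exp (- lam * t)` -/
noncomputable def ex (lam t : ℝ) : ℝ≥0∞ := ENNReal.ofReal (Real.exp (-(lam * t)))

theorem ex_add (lam s t : ℝ) : ex lam (s + t) = ex lam s * ex lam t := by
  unfold ex
  rw [← ENNReal.ofReal_mul (Real.exp_pos _).le, ← Real.exp_add]
  congr 2
  ring

theorem ex_le_one {lam t : ℝ} (hl : 0 ≤ lam) (ht : 0 ≤ t) : ex lam t ≤ 1 := by
  unfold ex
  rw [ENNReal.ofReal_le_one, Real.exp_le_one_iff]
  have := mul_nonneg hl ht
  linarith

theorem ex_anti {lam s t : ℝ} (hl : 0 ≤ lam) (h : s ≤ t) : ex lam t ≤ ex lam s := by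
  unfold ex
  refine ENNReal.ofReal_le_ofReal (Real.exp_le_exp.2 ?_)
  have := mul_le_mul_of_nonneg_left h hl
  linarith

theorem ex_zero (lam : ℝ) : ex lam 0 = 1 := by simp [ex]

theorem cost_cons (x : Sym2 V → ℝ) (a b : V) (l : List V) :
    cost x (a :: b :: l) = x s(a, b) + cost x (b :: l) := by
  simp [cost, edg]

theorem cost_one (x : Sym2 V → ℝ) (a : V) : cost x [a] = 0 := by simp [cost, edg]

theorem cost_nonneg {x : Sym2 V → ℝ} (hx : ∀ e, 0 ≤ x e) (l : List V) : 0 ≤ cost x l := by
  unfold cost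
  refine List.sum_nonneg ?_
  intro y hy
  obtain ⟨e, _, rfl⟩ := List.mem_map.1 hy
  exact hx e

theorem cost_mono {x y : Sym2 V → ℝ} (h : ∀ e, x e ≤ y e) (l : List V) : cost x l ≤ cost y l := by
  unfold cost
  induction edg l with
  | nil => simp
  | cons e t ih =>
    simp only [List.map_cons, List.sum_cons]
    exact add_le_add (h e) ih

/-- supremum over the paths from `a` to `v` -/
noncomputable def W (lam : ℝ) (v a : V) (x : Sym2 V → ℝ) : ℝ≥0∞ :=
  ⨆ l : List V, ⨆ _ : Pa v (a :: l), ex lam (cost x (a :: l))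

/-- supremum over the exit paths from `a` -/
noncomputable def Io (lam : ℝ) (B : Set V) (a : V) (x : Sym2 V → ℝ) : ℝ≥0∞ :=
  ⨆ l : List V, ⨆ _ : Ex B (a :: l), ex lam (cost x (a :: l))

/-- supremum over the paths from `a` to `v` outside of `B` -/
noncomputable def Oo (lam : ℝ) (B : Set V) (v a : V) (x : Sym2 V → ℝ) : ℝ≥0∞ :=
  ⨆ l : List V, ⨆ _ : Ou B v (a :: l), ex lam (cost x (a :: l))

theorem le_W {lam : ℝ} {v a : V} {x : Sym2 V → ℝ} {l : List V} (h : Pa v (a :: l)) :
    ex lam (cost x (a :: l)) ≤ W lam v a x :=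
  le_iSup₂_of_le l h le_rfl

theorem le_Io {lam : ℝ} {B : Set V} {a : V} {x : Sym2 V → ℝ} {l : List V} (h : Ex B (a :: l)) :
    ex lam (cost x (a :: l)) ≤ Io lam B a x :=
  le_iSup₂_of_le l h le_rfl

theorem le_Oo {lam : ℝ} {B : Set V} {v a : V} {x : Sym2 V → ℝ} {l : List V}
    (h : Ou B v (a :: l)) : ex lam (cost x (a :: l)) ≤ Oo lam B v a x :=
  le_iSup₂_of_le l h le_rfl

theorem Ou.ne {B : Set V} {v a : V} {l : List V} (h : Ou B v (a :: l)) : a ∉ B := by
  cases l with
  | nil => exact h.2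
  | cons b l => exact h.1

theorem Ou.pa {B : Set V} {v : V} : ∀ {l : List V} {a : V}, Ou B v (a :: l) → Pa v (a :: l)
  | [], _, h => h.1
  | _ :: _, _, h => ⟨h.2.1, Ou.pa h.2.2⟩

theorem Oo_le_W (lam : ℝ) (B : Set V) (v a : V) (x : Sym2 V → ℝ) :
    Oo lam B v a x ≤ W lam v a x :=
  iSup₂_le fun _ h => le_W h.pa

/-- an exit path from a site of `B` ends at the boundary -/
theorem Ex.end {B : Set V} {D : Finset V} (hD : ∀ a ∈ B, ∀ b, b ∉ B → Nb a b → b ∈ D) :
    ∀ {l : List V} {a : V}, Ex B (a :: l) → ∃ y, y ∉ B ∧ Pa y (a :: l) ∧ (a ∈ B → y ∈ D) := by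
  intro l
  induction l with
  | nil =>
    intro a h
    exact ⟨a, h, rfl, fun h' => absurd h' h⟩
  | cons b l ih =>
    intro a h
    obtain ⟨y, hy1, hy2, hy3⟩ := ih h.2.2
    refine ⟨y, hy1, ⟨h.2.1, hy2⟩, fun _ => ?_⟩
    by_cases hb : b ∈ B
    · exact hy3 hb
    · have h1 := h.2.2
      cases l with
      | nil =>
        have : b = y := hy2
        rw [← this]
        exact hD a h.1 b hb h.2.1
      | cons c l => exact absurd h1.1 hb

theorem Io_le {lam : ℝ} {B : Set V} {D : Finset V}
    (hD : ∀ a ∈ B, ∀ b, b ∉ B → Nb a b → b ∈ D) {a : V} (ha : a ∈ B) {x : Sym2 V → ℝ} {C : ℝ≥0∞}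
    (h : ∀ y ∈ D, y ∉ B → W lam y a x ≤ C) : Io lam B a x ≤ C := by
  refine iSup₂_le fun l hl => ?_
  obtain ⟨y, hy1, hy2, hy3⟩ := Ex.end hD hl
  exact (le_W hy2).trans (h y (hy3 ha) hy1)

section
variable {lam : ℝ} {B : Set V} {D : Finset V} {w : V} {x : Sym2 V → ℝ}

theorem out_step (hl : 0 ≤ lam) (hx : ∀ e, 0 ≤ x e)
    (hD : ∀ a ∈ B, ∀ b, b ∉ B → Nb a b → b ∈ D) (hw : w ∉ B) :
    ∀ (l : List V) (a : V), Pa w (a :: l) →
      (a ∈ B → ex lam (cost x (a :: l)) ≤ ∑ z ∈ D, Oo lam B w z x) ∧
      (a ∉ B → ex lam (cost x (a :: l)) ≤ max (∑ z ∈ D, Oo lam B w z x) (Oo lam B w a x)) := by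
  intro l
  induction l with
  | nil =>
    intro a h
    have ha : a = w := h
    refine ⟨fun h' => absurd (ha ▸ h') hw, fun h' => le_max_of_le_right ?_⟩
    exact le_Oo ⟨ha, h'⟩
  | cons b l ih =>
    intro a h
    obtain ⟨h1, h2⟩ := ih b h.2
    have hle : ex lam (cost x (a :: b :: l)) ≤ ex lam (cost x (b :: l)) := by
      refine ex_anti hl ?_
      rw [cost_cons]
      have := hx s(a, b)
      linarith
    refine ⟨fun ha => ?_, fun ha => ?_⟩
    · by_cases hb : b ∈ B
      · exact hle.trans (h1 hb)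
      · refine hle.trans ((h2 hb).trans (max_le le_rfl ?_))
        exact Finset.single_le_sum (f := fun z => Oo lam B w z x) (fun _ _ => zero_le)
          (hD a ha b hb h.1)
    · by_cases hb : b ∈ B
      · exact le_max_of_le_left (hle.trans (h1 hb))
      · rcases le_total (Oo lam B w b x) (∑ z ∈ D, Oo lam B w z x) with h3 | h3
        · refine le_max_of_le_left (hle.trans ((h2 hb).trans ?_))
          rw [max_eq_left h3]
        · refine le_max_of_le_right ?_
          rw [cost_cons, ex_add]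
          calc ex lam (x s(a, b)) * ex lam (cost x (b :: l))
              ≤ ex lam (x s(a, b)) * Oo lam B w b x := by
                gcongr
                exact (h2 hb).trans (by rw [max_eq_right h3])
            _ ≤ Oo lam B w a x := by
                unfold Oo
                rw [ENNReal.mul_iSup]
                refine iSup_le fun m => ?_
                rw [ENNReal.mul_iSup]
                refine iSup_le fun hm => ?_
                rw [← ex_add, ← cost_cons]
                exact le_iSup₂_of_le (b :: m) ⟨ha, h.1, hm⟩ le_rfl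

theorem in_step (hl : 0 ≤ lam) (hx : ∀ e, 0 ≤ x e)
    (hD : ∀ a ∈ B, ∀ b, b ∉ B → Nb a b → b ∈ D) (hw : w ∉ B) :
    ∀ (l : List V) (a : V), a ∈ B → Pa w (a :: l) →
      ex lam (cost x (a :: l)) ≤ Io lam B a x * ∑ z ∈ D, Oo lam B w z x := by
  intro l
  induction l with
  | nil =>
    intro a ha h
    have h' : a = w := h
    exact absurd (h' ▸ ha) hw
  | cons b l ih =>
    intro a ha h
    rw [cost_cons, ex_add]
    by_cases hb : b ∈ B
    · calc ex lam (x s(a, b)) * ex lam (cost x (b :: l))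
          ≤ ex lam (x s(a, b)) * (Io lam B b x * ∑ z ∈ D, Oo lam B w z x) := by
            gcongr
            exact ih b hb h.2
        _ = (ex lam (x s(a, b)) * Io lam B b x) * ∑ z ∈ D, Oo lam B w z x := (mul_assoc _ _ _).symm
        _ ≤ _ := by
            gcongr
            unfold Io
            rw [ENNReal.mul_iSup]
            refine iSup_le fun m => ?_
            rw [ENNReal.mul_iSup]
            refine iSup_le fun hm => ?_
            rw [← ex_add, ← cost_cons]
            exact le_iSup₂_of_le (b :: m) ⟨ha, h.1, hm⟩ le_rfl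
    · have h1 : ex lam (x s(a, b)) ≤ Io lam B a x := by
        have h2 : Ex B (a :: [b]) := ⟨ha, h.1, hb⟩
        have h3 := le_Io (lam := lam) (x := x) h2
        rw [cost_cons, cost_one, add_zero] at h3
        exact h3
      have h2 : ex lam (cost x (b :: l)) ≤ ∑ z ∈ D, Oo lam B w z x := by
        refine ((out_step hl hx hD hw l b h.2).2 hb).trans (max_le le_rfl ?_)
        exact Finset.single_le_sum (f := fun z => Oo lam B w z x) (fun _ _ => zero_le)
          (hD a ha b hb h.1)
      exact mul_le_mul' h1 h2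

/-- the deterministic decomposition at the first exit from `B` and the last visit of `B` -/
theorem W_le (hl : 0 ≤ lam) (hx : ∀ e, 0 ≤ x e)
    (hD : ∀ a ∈ B, ∀ b, b ∉ B → Nb a b → b ∈ D) (hw : w ∉ B) {a : V} (ha : a ∈ B) :
    W lam w a x ≤ Io lam B a x * ∑ z ∈ D, Oo lam B w z x :=
  iSup₂_le fun l h => in_step hl hx hD hw l a ha h

end

/-! ### measurability -/

theorem meas_cost {Ω : Type} {m : MeasurableSpace Ω} {X : Sym2 V → Ω → ℝ} :
    ∀ {L : List (Sym2 V)}, (∀ e ∈ L, Measurable[m] (X e)) →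
      Measurable[m] fun ω => (L.map (fun e => X e ω)).sum
  | [], _ => by simp
  | e :: L, h => by
    simp only [List.map_cons, List.sum_cons]
    exact (h e (by simp)).add (meas_cost fun e' he' => h e' (by simp [he']))

theorem meas_ex {Ω : Type} {m : MeasurableSpace Ω} {f : Ω → ℝ} (lam : ℝ) (hf : Measurable[m] f) :
    Measurable[m] fun ω => ex lam (f ω) := by
  unfold ex
  exact ENNReal.measurable_ofReal.comp
    (Real.measurable_exp.comp ((hf.const_mul lam).neg))

theorem meas_sup {Ω : Type} {m : MeasurableSpace Ω} {X : Sym2 V → Ω → ℝ} (lam : ℝ)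
    (S : List V → Prop) (h : ∀ l, S l → ∀ e ∈ edg l, Measurable[m] (X e)) (a : V) :
    Measurable[m] fun ω => ⨆ l : List V, ⨆ _ : S (a :: l),
      ex lam (cost (fun e => X e ω) (a :: l)) := by
  refine Measurable.iSup fun l => ?_
  by_cases hl : S (a :: l)
  · simp only [hl, iSup_pos]
    exact meas_ex lam (meas_cost (h _ hl))
  · simp only [hl]
    simp

theorem edg_Ex {B : Set V} : ∀ {l : List V}, Ex B l → ∀ e ∈ edg l, ∃ a ∈ B, ∃ b, e = s(a, b)
  | [], h, _, _ => absurd h id
  | [_], _, e, he => by simp [edg] at he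
  | a :: b :: l, h, e, he => by
    simp only [edg, List.mem_cons] at he
    rcases he with he | he
    · exact ⟨a, h.1, b, he⟩
    · exact edg_Ex h.2.2 e he

theorem edg_Ou {B : Set V} {v : V} : ∀ {l : List V}, Ou B v l → ∀ e ∈ edg l,
    ∃ a, a ∉ B ∧ ∃ b, b ∉ B ∧ e = s(a, b)
  | [], h, _, _ => absurd h id
  | [_], _, e, he => by simp [edg] at he
  | a :: b :: l, h, e, he => by
    simp only [edg, List.mem_cons] at he
    rcases he with he | he
    · exact ⟨a, h.1, b, h.2.2.ne, he⟩
    · exact edg_Ou h.2.2 e he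

/-! ### the relation with the passage time -/

theorem Pa_of_fun (x : Sym2 V → ℝ) (v : V) : ∀ (n : ℕ) (a : V) (p : ℕ → V), p 0 = a → p n = v →
    (∀ i < n, |(p (i + 1)).1 - (p i).1| + |(p (i + 1)).2 - (p i).2| = 1) →
    ∃ l, Pa v (a :: l) ∧ cost x (a :: l) = ∑ i ∈ Finset.range n, x s(p i, p (i + 1)) := by
  intro n
  induction n with
  | zero =>
    intro a p h0 h1 _
    refine ⟨[], ?_, by simp [cost_one]⟩
    show a = v
    rw [← h0, h1]
  | succ n ih =>
    intro a p h0 h1 h2
    obtain ⟨l, hl1, hl2⟩ := ih (p 1) (fun i => p (i + 1)) rfl h1 fun i hi => h2 (i + 1) (by omega)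
    refine ⟨p 1 :: l, ⟨?_, hl1⟩, ?_⟩
    · have := h2 0 (by omega)
      rw [h0] at this
      exact this
    · rw [cost_cons, hl2, Finset.sum_range_succ', ← h0, add_comm]

theorem fun_of_Pa (x : Sym2 V → ℝ) (v : V) : ∀ (l : List V) (a : V), Pa v (a :: l) →
    cost x (a :: l) ∈ PS x a v := by
  intro l
  induction l with
  | nil =>
    intro a h
    refine ⟨0, fun _ => a, rfl, h, by simp, by simp [cost_one]⟩
  | cons b l ih =>
    intro a h
    obtain ⟨n, p, h0, h1, h2, h3⟩ := ih b h.2
    refine ⟨n + 1, fun i => if i = 0 then a else p (i - 1), by simp, by simp [h1], ?_, ?_⟩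
    · intro i hi
      rcases Nat.eq_zero_or_pos i with rfl | hi0
      · simp only [zero_add, one_ne_zero, if_false, Nat.sub_self, if_true, h0]
        exact h.1
      · obtain ⟨j, rfl⟩ : ∃ j, i = j + 1 := ⟨i - 1, by omega⟩
        simpa using h2 j (by omega)
    · rw [cost_cons, h3, Finset.sum_range_succ']
      simp [h0, add_comm]

theorem W_eq (hGE : S_GE) {lam : ℝ} (hl : 0 ≤ lam) {x : Sym2 V → ℝ} (hx : ∀ e, 0 ≤ x e)
    (a v : V) : W lam v a x = ex lam (D x a v) := by
  obtain ⟨hne, hbd, _, _⟩ := hGE x hx a v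
  refine le_antisymm (iSup₂_le fun l h => ex_anti hl (csInf_le hbd (fun_of_Pa x v l a h))) ?_
  have key : ∀ n : ℕ, ex lam (D x a v + 1 / ((n : ℝ) + 1)) ≤ W lam v a x := by
    intro n
    obtain ⟨s, ⟨N, p, h0, h1, h2, h3⟩, hs⟩ :=
      exists_lt_of_csInf_lt hne (show sInf (PS x a v) < D x a v + 1 / ((n : ℝ) + 1) from
        lt_add_of_pos_right _ Nat.one_div_pos_of_nat)
    obtain ⟨l, hl1, hl2⟩ := Pa_of_fun x v N a p h0 h1 h2
    refine (ex_anti hl hs.le).trans ?_
    rw [h3, ← hl2]
    exact le_W hl1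
  have hlim : Tendsto (fun n : ℕ => ex lam (D x a v + 1 / ((n : ℝ) + 1))) atTop
      (𝓝 (ex lam (D x a v))) := by
    unfold ex
    have hc : Continuous fun t : ℝ => ENNReal.ofReal (Real.exp (-(lam * t))) :=
      ENNReal.continuous_ofReal.comp
        (Real.continuous_exp.comp ((continuous_const.mul continuous_id).neg))
    have h1 := (hc.tendsto (D x a v)).comp
      (g := fun t : ℝ => ENNReal.ofReal (Real.exp (-(lam * t))))
      (show Tendsto (fun n : ℕ => D x a v + 1 / ((n : ℝ) + 1)) atTop (𝓝 (D x a v)) by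
        simpa using (tendsto_one_div_add_atTop_nhds_zero_nat (𝕜 := ℝ)).const_add (D x a v))
    exact h1
  exact le_of_tendsto hlim (Eventually.of_forall key)

end Pool.Agent.U874.FP
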