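import Pool.Agent.U874.FP.Out

/-!
# One-point estimates and the outer event
-/

set_option autoImplicit false
open MeasureTheory ProbabilityTheory Filter Set
open scoped ENNReal Topology Pointwise

namespace Pool.Agent.U874.FP

open Pool.Agent.N662.FP

set_option linter.unusedSectionVars false

variable {Ω : Type} [MeasureSpace Ω] [IsProbabilityMeasure (volume : Measure Ω)]
  {X : Sym2 (ℤ × ℤ) → Ω → ℝ}

/-- polynomial one-point estimates for the lower tails -/
def Pt (T : Ω → ℤ × ℤ → ℝ) (μ : Seminorm ℝ (ℝ × ℝ)) (κ q C : ℝ) : Prop :=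
  ∀ v : ℤ × ℤ, (volume : Measure Ω).real {ω | T ω v ≤ μ (em v) - (1 + μ (em v)) ^ (1 - κ)} ≤
    C * (1 + μ (em v)) ^ (-q)

theorem exp_le_pow (b δ q : ℝ) (hb : 0 < b) (hδ : 0 < δ) : ∃ A : ℝ, 0 < A ∧ ∀ x : ℝ, 1 ≤ x →
    Real.exp (-(b * x ^ δ)) ≤ A * x ^ (-q) := by
  obtain ⟨m, hm⟩ := exists_nat_gt (q / δ)
  have hm' : q ≤ δ * m := by
    rw [div_lt_iff₀ hδ] at hm
    linarith
  have hf : (0 : ℝ) < m.factorial := by exact_mod_cast Nat.factorial_pos m
  refine ⟨m.factorial / b ^ m, by positivity, fun x hx => ?_⟩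
  have hx0 : 0 < x := by linarith
  have h1 : (b * x ^ δ) ^ m / m.factorial ≤ Real.exp (b * x ^ δ) :=
    Real.pow_div_factorial_le_exp _ (by positivity) m
  have h2 : x ^ q ≤ (x ^ δ) ^ m := by
    rw [← Real.rpow_natCast (x ^ δ) m, ← Real.rpow_mul hx0.le]
    exact Real.rpow_le_rpow_of_exponent_le hx hm'
  rw [Real.exp_neg, Real.rpow_neg hx0.le, ← div_eq_mul_inv, ← one_div, div_div,
    div_le_div_iff₀ (Real.exp_pos _) (by positivity)]
  have h4 : (b * x ^ δ) ^ m ≤ m.factorial * Real.exp (b * x ^ δ) := by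
    rw [div_le_iff₀ hf] at h1
    linarith
  calc 1 * (b ^ m * x ^ q) ≤ 1 * (b ^ m * (x ^ δ) ^ m) := by gcongr
    _ = (b * x ^ δ) ^ m := by rw [mul_pow, one_mul]
    _ ≤ _ := h4

theorem pt_of_low {T : Ω → ℤ × ℤ → ℝ} {μ : Seminorm ℝ (ℝ × ℝ)} {κ κ' c : ℝ} (q : ℝ)
    (hκ : 0 < κ) (hκκ : κ < κ') (hκ1 : κ' < 1) (hc : 0 < c)
    (h0 : ∀ v, ∀ᵐ ω ∂(volume : Measure Ω), 0 ≤ T ω v)
    (h : Low T μ κ' c) : ∃ C : ℝ, 0 < C ∧ Pt T μ κ q C := by
  have hκ' : 0 < κ' := hκ.trans hκκ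
  obtain ⟨A, hA, hAx⟩ := exp_le_pow c (1 - κ / κ') q hc
    (by rw [sub_pos, div_lt_one hκ']; exact hκκ)
  refine ⟨A, hA, fun v => ?_⟩
  obtain ⟨M, hMd⟩ : ∃ M : ℝ, M = μ (em v) := ⟨_, rfl⟩
  have hM : 0 ≤ M := by rw [hMd]; exact apply_nonneg μ _
  rw [← hMd]
  have hpos : 0 < (1 + M) ^ (1 - κ) := by positivity
  rcases lt_or_ge M ((1 + M) ^ (1 - κ)) with h2 | h2
  · have : (volume : Measure Ω).real {ω | T ω v ≤ M - (1 + M) ^ (1 - κ)} = 0 := by
      rw [measureReal_eq_zero_iff]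
      refine measure_mono_null (t := {ω | ¬ 0 ≤ T ω v}) (fun ω hω => ?_) (h0 v)
      have h3 : T ω v ≤ M - (1 + M) ^ (1 - κ) := hω
      show ¬ 0 ≤ T ω v
      linarith
    rw [this]
    positivity
  · have hM0 : 0 < M := lt_of_lt_of_le hpos h2
    have h3 := h v ((1 + M) ^ (1 - κ) / M) (by positivity) (by rw [div_le_one hM0]; exact h2)
    rw [← hMd] at h3
    have e1 : (1 - (1 + M) ^ (1 - κ) / M) * M = M - (1 + M) ^ (1 - κ) := by field_simp
    rw [e1] at h3
    refine h3.trans (le_trans ?_ (hAx (1 + M) (by linarith)))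
    rw [Real.exp_le_exp, neg_le_neg_iff, mul_assoc]
    refine mul_le_mul_of_nonneg_left ?_ hc.le
    have hM1 : 0 < 1 + M := by linarith
    rw [Real.div_rpow hpos.le hM0.le, ← Real.rpow_mul hM1.le]
    have e2 : M * ((1 + M) ^ ((1 - κ) * (1 / κ')) / M ^ (1 / κ')) =
        (1 + M) ^ ((1 - κ) * (1 / κ')) * M ^ (-(1 / κ' - 1)) := by
      rw [Real.rpow_neg hM0.le, Real.rpow_sub_one hM0.ne']
      field_simp
    have h5 : (1 + M) ^ (-(1 / κ' - 1)) ≤ M ^ (-(1 / κ' - 1)) := by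
      refine Real.rpow_le_rpow_of_nonpos hM0 (by linarith) ?_
      have : 1 ≤ 1 / κ' := by rw [le_div_iff₀ hκ']; linarith
      linarith
    rw [e2]
    calc (1 + M) ^ (1 - κ / κ') =
          (1 + M) ^ ((1 - κ) * (1 / κ')) * (1 + M) ^ (-(1 / κ' - 1)) := by
          rw [← Real.rpow_add hM1]
          congr 1
          field_simp
          ring
      _ ≤ _ := by gcongr

theorem summ_pow (μ : Seminorm ℝ (ℝ × ℝ)) (hμ : ∀ x, μ x = 0 → x = 0) (s : ℝ) (hs : 2 < s) :
    Summable fun v : V => (1 + μ (em v)) ^ (-s) := by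
  obtain ⟨c, C, hc, hC, hcC⟩ := cNORM μ hμ
  have h1 : Summable fun n : ℤ => (1 + |(n : ℝ)|) ^ (-(s / 2)) := by
    have h := Real.summable_abs_int_rpow (b := s / 2) (by linarith)
    refine Summable.of_norm_bounded_eventually h ?_
    have hfin : ({0} : Set ℤ).Finite := Set.finite_singleton 0
    filter_upwards [hfin.compl_mem_cofinite] with n hn
    have hn' : n ≠ 0 := hn
    have h1 : 0 < |(n : ℝ)| := abs_pos.2 (by exact_mod_cast hn')
    rw [Real.norm_of_nonneg (by positivity)]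
    exact Real.rpow_le_rpow_of_nonpos h1 (by linarith) (by linarith)
  have h := h1.mul_of_nonneg h1 (fun n => by positivity) (fun n => by positivity)
  refine Summable.of_nonneg_of_le
    (fun v => by have : 0 ≤ μ (em v) := apply_nonneg μ _; positivity) (fun v => ?_)
    (h.mul_left ((1 + 1 / c) ^ s))
  have hM : 0 ≤ μ (em v) := apply_nonneg μ _
  have h2 : max |(v.1 : ℝ)| |(v.2 : ℝ)| ≤ μ (em v) / c := by
    rw [le_div_iff₀ hc, mul_comm]
    exact (hcC (em v)).1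
  have hc0 : 0 < 1 / c := by positivity
  have h3 : ∀ x : ℝ, |x| ≤ max |(v.1 : ℝ)| |(v.2 : ℝ)| →
      1 + |x| ≤ (1 + 1 / c) * (1 + μ (em v)) := by
    intro x hx
    have := hx.trans h2
    have e : (1 + 1 / c) * (1 + μ (em v)) = 1 + 1 / c + μ (em v) + μ (em v) / c := by ring
    rw [e]
    linarith
  have h4 : ∀ x : ℝ, |x| ≤ max |(v.1 : ℝ)| |(v.2 : ℝ)| →
      ((1 + 1 / c) * (1 + μ (em v))) ^ (-(s / 2)) ≤ (1 + |x|) ^ (-(s / 2)) := by
    intro x hx
    exact Real.rpow_le_rpow_of_nonpos (by positivity) (h3 x hx) (by linarith)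
  have h5 := mul_le_mul (h4 _ (le_max_left _ _)) (h4 _ (le_max_right _ _)) (by positivity)
    (by positivity)
  have e1 : ((1 + 1 / c) * (1 + μ (em v))) ^ (-(s / 2)) *
      ((1 + 1 / c) * (1 + μ (em v))) ^ (-(s / 2)) = (1 + 1 / c) ^ (-s) * (1 + μ (em v)) ^ (-s) := by
    rw [← Real.rpow_add (by positivity), ← Real.mul_rpow (by positivity) (by positivity)]
    congr 1
    ring
  rw [e1] at h5
  calc (1 + μ (em v)) ^ (-s) = (1 + 1 / c) ^ s * ((1 + 1 / c) ^ (-s) * (1 + μ (em v)) ^ (-s)) := by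
        rw [← mul_assoc, ← Real.rpow_add (by positivity), add_neg_cancel, Real.rpow_zero, one_mul]
    _ ≤ _ := by gcongr

theorem esc_of_pt (μ : Seminorm ℝ (ℝ × ℝ)) (hμ : ∀ x, μ x = 0 → x = 0) {T : Ω → ℤ × ℤ → ℝ}
    {κ κ' q s C : ℝ} (h0 : 0 < κ) (h1 : κ < κ') (h2 : κ' < 1) (hC : 0 < C) (hs : 2 < s)
    (hsq : s ≤ q) (hP : Pt T μ κ' q C) :
    Asymptotics.IsBigO atTop (fun t : ℝ => (volume : Measure Ω).real (Esc T μ κ t))
      (fun t : ℝ => t ^ (-(q - s))) := by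
  obtain ⟨C1, hC1, hcov⟩ := esc_cover (Ω := Ω) μ hμ
  have hS := summ_pow μ hμ s hs
  obtain ⟨S, hSd⟩ : ∃ S : ℝ, S = ∑' v : V, (1 + μ (em v)) ^ (-s) := ⟨_, rfl⟩
  have hS0 : 0 ≤ S := by
    rw [hSd]
    exact tsum_nonneg fun v => by have : 0 ≤ μ (em v) := apply_nonneg μ _; positivity
  have ev1 : ∀ᶠ t : ℝ in atTop, C1 + (1 + 2 * t) ^ (1 - κ') ≤ t ^ (1 - κ) := by
    have t1 : Tendsto (fun t : ℝ => t ^ (-(κ' - κ))) atTop (𝓝 0) :=
      tendsto_rpow_neg_atTop (by linarith)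
    have t2 : Tendsto (fun t : ℝ => t ^ (-(1 - κ))) atTop (𝓝 0) :=
      tendsto_rpow_neg_atTop (by linarith)
    have t3 := (t2.const_mul C1).add (t1.const_mul ((3 : ℝ) ^ (1 - κ')))
    rw [mul_zero, mul_zero, add_zero] at t3
    filter_upwards [t3.eventually_le_const one_pos, eventually_ge_atTop (1 : ℝ)] with t ht ht1
    have ht0 : 0 < t := by linarith
    have g1 : (1 + 2 * t) ^ (1 - κ') ≤ 3 ^ (1 - κ') * t ^ (1 - κ') := by
      rw [← Real.mul_rpow (by norm_num) ht0.le]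
      exact Real.rpow_le_rpow (by positivity) (by linarith) (by linarith)
    have g2 : t ^ (1 - κ') = t ^ (-(κ' - κ)) * t ^ (1 - κ) := by
      rw [← Real.rpow_add ht0]
      congr 1
      ring
    have g3 : C1 = C1 * t ^ (-(1 - κ)) * t ^ (1 - κ) := by
      rw [mul_assoc, ← Real.rpow_add ht0, neg_add_cancel, Real.rpow_zero, mul_one]
    have g4 : 0 < t ^ (1 - κ) := by positivity
    calc C1 + (1 + 2 * t) ^ (1 - κ') ≤ C1 + 3 ^ (1 - κ') * t ^ (1 - κ') := by linarith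
      _ = (C1 * t ^ (-(1 - κ)) + 3 ^ (1 - κ') * t ^ (-(κ' - κ))) * t ^ (1 - κ) := by
          rw [g2, add_mul, ← g3]
          ring
      _ ≤ 1 * t ^ (1 - κ) := by gcongr
      _ = _ := one_mul _
  have ev2 : ∀ᶠ t : ℝ in atTop, ∀ x : ℝ, 2 * t ≤ x → (1 + x) ^ (1 - κ') ≤ x / 2 := by
    have t1 : Tendsto (fun t : ℝ => t ^ (-κ')) atTop (𝓝 0) :=
      tendsto_rpow_neg_atTop (by linarith)
    have t2 := t1.const_mul ((2 : ℝ) ^ (1 - κ'))
    rw [mul_zero] at t2
    obtain ⟨x0, hx0⟩ := eventually_atTop.1 (t2.eventually_le_const (show (0 : ℝ) < 1 / 2 by norm_num))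
    filter_upwards [eventually_ge_atTop (max x0 1)] with t ht x hx
    have ht1 : 1 ≤ t := (le_max_right _ _).trans ht
    have hx1 : 1 ≤ x := by linarith
    have hxp : 0 < x := by linarith
    have g1 := hx0 x (((le_max_left _ _).trans ht).trans (by linarith))
    have g2 : (1 + x) ^ (1 - κ') ≤ 2 ^ (1 - κ') * x ^ (1 - κ') := by
      rw [← Real.mul_rpow (by norm_num) hxp.le]
      exact Real.rpow_le_rpow (by positivity) (by linarith) (by linarith)
    have g3 : x ^ (1 - κ') = x ^ (-κ') * x := by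
      rw [← Real.rpow_add_one hxp.ne']
      congr 1
      ring
    rw [g3, ← mul_assoc] at g2
    nlinarith
  refine Asymptotics.IsBigO.of_bound (C * S) ?_
  filter_upwards [ev1, ev2, eventually_ge_atTop (1 : ℝ)] with t g1 g2 g3
  have ht0 : 0 < t := by linarith
  rw [Real.norm_of_nonneg measureReal_nonneg, Real.norm_of_nonneg (Real.rpow_nonneg ht0.le _)]
  have hpt : ∀ v : V, (volume : Measure Ω) {ω | t + t ^ (1 - κ) - C1 < μ (em v) ∧ T ω v ≤ t} ≤
      ENNReal.ofReal (C * t ^ (-(q - s)) * (1 + μ (em v)) ^ (-s)) := by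
    intro v
    by_cases hv : t + t ^ (1 - κ) - C1 < μ (em v)
    · obtain ⟨M, hM⟩ : ∃ M : ℝ, M = μ (em v) := ⟨_, rfl⟩
      have hPv := hP v
      rw [← hM] at hv hPv ⊢
      have hpp : 0 < (1 + 2 * t) ^ (1 - κ') := by positivity
      have hMt : t < M := by linarith
      have hM0 : 0 < M := by linarith
      have h6 : t ≤ M - (1 + M) ^ (1 - κ') := by
        rcases le_total (2 * t) M with h7 | h7
        · have := g2 M h7
          linarith
        · have : (1 + M) ^ (1 - κ') ≤ (1 + 2 * t) ^ (1 - κ') :=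
            Real.rpow_le_rpow (by linarith) (by linarith) (by linarith)
          linarith
      have hsub : {ω | t + t ^ (1 - κ) - C1 < M ∧ T ω v ≤ t} ⊆
          {ω | T ω v ≤ M - (1 + M) ^ (1 - κ')} := by
        intro ω hω
        have : T ω v ≤ t := hω.2
        show T ω v ≤ M - (1 + M) ^ (1 - κ')
        linarith
      refine (measure_mono (μ := (volume : Measure Ω)) hsub).trans ?_
      rw [← ofReal_measureReal (μ := (volume : Measure Ω))
        (s := {ω | T ω v ≤ M - (1 + M) ^ (1 - κ')}) (measure_ne_top _ _)]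
      refine ENNReal.ofReal_le_ofReal (hPv.trans ?_)
      have h8 : (1 + M) ^ (-q) = (1 + M) ^ (-(q - s)) * (1 + M) ^ (-s) := by
        rw [← Real.rpow_add (by linarith)]
        congr 1
        ring
      have h9 : (1 + M) ^ (-(q - s)) ≤ t ^ (-(q - s)) :=
        Real.rpow_le_rpow_of_nonpos ht0 (by linarith) (by linarith)
      rw [h8, mul_assoc]
      gcongr
    · have : {ω | t + t ^ (1 - κ) - C1 < μ (em v) ∧ T ω v ≤ t} = ∅ := by
        ext ω
        simp [hv]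
      rw [this, measure_empty]
      exact zero_le
  have hfin : (volume : Measure Ω) (Esc T μ κ t) ≤
      ENNReal.ofReal (C * S * t ^ (-(q - s))) := by
    refine (measure_mono (hcov T κ t ht0)).trans ((measure_iUnion_le _).trans
      ((ENNReal.tsum_le_tsum hpt).trans ?_))
    rw [← ENNReal.ofReal_tsum_of_nonneg
      (fun v => by have : 0 ≤ μ (em v) := apply_nonneg μ _; positivity) (hS.mul_left _),
      tsum_mul_left, ← hSd]
    refine ENNReal.ofReal_le_ofReal (le_of_eq ?_)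
    ring
  exact ENNReal.toReal_le_of_le_ofReal (by positivity) hfin

end Pool.Agent.U874.FP
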