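import Pool.Agent.U874.FP.Paths
import Pool.Agent.N662.FP.Cl
import Pool.Agent.N36.FL.Win
import Pool.Agent.H374.JAbsA

/-!
# Laplace transforms of the passage times: decoupling, association, translation invariance
-/

set_option autoImplicit false
open MeasureTheory ProbabilityTheory Filter Set
open scoped ENNReal Topology

namespace Pool.Agent.U874.FP

open Pool.Agent.N662.FP
open Pool.Agent.N390.FL.TI (sg sg_inj D_shift)
open Pool.Agent.N36.FL (ext ext_cont ext_of_mem)
open Pool.Agent.H374 (JabsHR)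

set_option linter.unusedSectionVars false
set_option linter.style.haveILetI false

variable {Ω : Type} [MeasureSpace Ω] [IsProbabilityMeasure (volume : Measure Ω)]
  {X : Sym2 (ℤ × ℤ) → Ω → ℝ}

/-- the Laplace transform of the passage time from `a` to `v` -/
noncomputable def phi (X : Sym2 (ℤ × ℤ) → Ω → ℝ) (lam : ℝ) (v a : V) : ℝ≥0∞ :=
  ∫⁻ ω, W lam v a (env X ω) ∂(volume : Measure Ω)

theorem meas_W (hX : Iid X) (lam : ℝ) (v a : V) : Measurable fun ω => W lam v a (env X ω) :=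
  meas_sup (X := X) lam (Pa v) (fun _ _ e _ => hX.meas e) a

theorem meas_Io (hX : Iid X) (lam : ℝ) (B : Set V) (a : V) :
    Measurable fun ω => Io lam B a (env X ω) :=
  meas_sup (X := X) lam (Ex B) (fun _ _ e _ => hX.meas e) a

/-- the inequality of Hammersley-Simon type -/
theorem hsl (hX : Iid X) {lam : ℝ} (hl : 0 ≤ lam) {B : Set V} {D : Finset V}
    (hD : ∀ a ∈ B, ∀ b, b ∉ B → Nb a b → b ∈ D) {w a : V} (hw : w ∉ B) (ha : a ∈ B) :
    phi X lam w a ≤ (∫⁻ ω, Io lam B a (env X ω) ∂(volume : Measure Ω)) *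
      ∑ z ∈ D, phi X lam w z := by
  obtain ⟨S, hS⟩ : ∃ S : Set (Sym2 V), S = {e | ∃ a ∈ B, ∃ b, e = s(a, b)} := ⟨_, rfl⟩
  obtain ⟨m, hm⟩ : ∃ m : Sym2 V → MeasurableSpace Ω,
      m = fun e => MeasurableSpace.comap (X e) inferInstance := ⟨_, rfl⟩
  have hle : ∀ e, m e ≤ (inferInstance : MeasurableSpace Ω) := by
    intro e
    rw [hm]
    exact (hX.meas e).comap_le
  have hind : iIndep m (volume : Measure Ω) := by
    rw [hm]
    exact hX.ind
  have hI := indep_iSup_of_disjoint hle hind (S := S) (T := Sᶜ) disjoint_compl_right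
  have hle1 : (⨆ e ∈ S, m e) ≤ (inferInstance : MeasurableSpace Ω) := iSup₂_le fun e _ => hle e
  have hle2 : (⨆ e ∈ Sᶜ, m e) ≤ (inferInstance : MeasurableSpace Ω) := iSup₂_le fun e _ => hle e
  have hme : ∀ (T : Set (Sym2 V)) (e : Sym2 V), e ∈ T → Measurable[⨆ e ∈ T, m e] (X e) := by
    intro T e he
    refine measurable_iff_comap_le.2 ?_
    have : MeasurableSpace.comap (X e) inferInstance = m e := by rw [hm]
    rw [this]
    exact le_iSup₂ (f := fun e (_ : e ∈ T) => m e) e he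
  have mI : Measurable[⨆ e ∈ S, m e] fun ω => Io lam B a (env X ω) := by
    refine meas_sup (X := X) lam (Ex B) (fun l hl e he => hme S e ?_) a
    obtain ⟨a', ha', b, h⟩ := edg_Ex hl e he
    rw [hS]
    exact ⟨a', ha', b, h⟩
  have mO : ∀ z, Measurable[⨆ e ∈ Sᶜ, m e] fun ω => Oo lam B w z (env X ω) := by
    intro z
    refine meas_sup (X := X) lam (Ou B w) (fun l hl e he => hme Sᶜ e ?_) z
    obtain ⟨a', ha', b', hb', h⟩ := edg_Ou hl e he
    rw [hS]
    rintro ⟨c, hc, d, h'⟩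
    rw [h, Sym2.eq_iff] at h'
    rcases h' with ⟨h1, _⟩ | ⟨_, h1⟩
    · exact ha' (h1 ▸ hc)
    · exact hb' (h1 ▸ hc)
  calc phi X lam w a
      ≤ ∫⁻ ω, Io lam B a (env X ω) * ∑ z ∈ D, Oo lam B w z (env X ω) ∂(volume : Measure Ω) := by
        refine lintegral_mono_ae ?_
        filter_upwards [cAE Ω X hX] with ω hω
        exact W_le hl hω hD hw ha
    _ = ∑ z ∈ D, ∫⁻ ω, Io lam B a (env X ω) * Oo lam B w z (env X ω) ∂(volume : Measure Ω) := by
        simp only [Finset.mul_sum]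
        refine lintegral_finsetSum' _ fun z _ => ?_
        exact ((mI.mono hle1 le_rfl).mul ((mO z).mono hle2 le_rfl)).aemeasurable
    _ = ∑ z ∈ D, (∫⁻ ω, Io lam B a (env X ω) ∂(volume : Measure Ω)) *
          ∫⁻ ω, Oo lam B w z (env X ω) ∂(volume : Measure Ω) := by
        refine Finset.sum_congr rfl fun z _ => ?_
        exact lintegral_mul_eq_lintegral_mul_lintegral_of_independent_measurableSpace hle1 hle2 hI
          mI (mO z)
    _ ≤ _ := by
        rw [Finset.mul_sum]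
        refine Finset.sum_le_sum fun z _ => ?_
        gcongr
        exact lintegral_mono fun ω => Oo_le_W lam B w z (env X ω)

/-! ### translation invariance -/

theorem phi_eq (hX : Iid X) {lam : ℝ} (hl : 0 ≤ lam) (v a : V) :
    phi X lam v a = ∫⁻ ω, ex lam (D (env X ω) a v) ∂(volume : Measure Ω) := by
  refine lintegral_congr_ae ?_
  filter_upwards [cAE Ω X hX] with ω hω
  exact W_eq cGE hl hω a v

theorem phi_shift (hX : Iid X) {lam : ℝ} (hl : 0 ≤ lam) (a v : V) :
    phi X lam (a + v) a = phi X lam v 0 := by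
  have hm := cME 0 v
  obtain ⟨Ψ, hΨ⟩ : ∃ Ψ : (Sym2 (ℤ × ℤ) → ℝ) → ℝ≥0∞,
      Ψ = fun x => ex lam (D (fun e => max (x e) 0) 0 v) := ⟨_, rfl⟩
  have hΨm : Measurable Ψ := by
    rw [hΨ]
    exact meas_ex lam hm
  have hae := cAE Ω X hX
  have e1 : phi X lam (a + v) a =
      ∫⁻ ω, Ψ (fun e => X (sg a e) ω) ∂(volume : Measure Ω) := by
    rw [phi_eq hX hl]
    refine lintegral_congr_ae ?_
    filter_upwards [hae] with ω hω
    have h3 : D (env X ω) a (a + v) = D (fun e => max (X (sg a e) ω) 0) 0 v := by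
      rw [D_shift]
      congr 1
      funext e
      exact (max_eq_left (hω (sg a e))).symm
    rw [h3, hΨ]
  have e2 : phi X lam v 0 = ∫⁻ ω, Ψ (fun e => X e ω) ∂(volume : Measure Ω) := by
    rw [phi_eq hX hl]
    refine lintegral_congr_ae ?_
    filter_upwards [hae] with ω hω
    have h3 : D (env X ω) 0 v = D (fun e => max (X e ω) 0) 0 v := by
      congr 1
      funext e
      exact (max_eq_left (hω e)).symm
    rw [h3, hΨ]
  have m1 : Measurable (fun ω (e : Sym2 (ℤ × ℤ)) => X (sg a e) ω) :=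
    measurable_pi_iff.2 fun e => hX.meas _
  have m2 : Measurable (fun ω (e : Sym2 (ℤ × ℤ)) => X e ω) := measurable_pi_iff.2 fun e => hX.meas e
  have l1 : Measure.map (fun ω (e : Sym2 (ℤ × ℤ)) => X (sg a e) ω) (volume : Measure Ω) =
      Measure.infinitePi (fun _ : Sym2 (ℤ × ℤ) => expMeasure 1) := by
    have h3 : iIndepFun (fun e => X (sg a e)) (volume : Measure Ω) := hX.ind.precomp (sg_inj a)
    have h4 := (iIndepFun_iff_map_fun_eq_infinitePi_map (fun e => hX.meas (sg a e))).1 h3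
    rw [h4]
    congr 1
    funext e
    exact hX.law _
  have l2 : Measure.map (fun ω (e : Sym2 (ℤ × ℤ)) => X e ω) (volume : Measure Ω) =
      Measure.infinitePi (fun _ : Sym2 (ℤ × ℤ) => expMeasure 1) := by
    have h4 := (iIndepFun_iff_map_fun_eq_infinitePi_map hX.meas).1 hX.ind
    rw [h4]
    congr 1
    funext e
    exact hX.law _
  rw [e1, e2, ← lintegral_map hΨm m1, ← lintegral_map hΨm m2, l1, l2]

/-! ### association -/

/-- an admissible profile: antitone, measurable, at most one on the half-line -/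
structure Prof (u : ℝ → ℝ≥0∞) : Prop where
  anti : Antitone u
  meas : Measurable u
  le_one : ∀ t, 0 ≤ t → u t ≤ 1

theorem prof_ex {lam : ℝ} (hl : 0 ≤ lam) : Prof (ex lam) :=
  ⟨fun _ _ h => ex_anti hl h, meas_ex lam measurable_id, fun _ ht => ex_le_one hl ht⟩

theorem prof_ind (s : ℝ) : Prof (fun t => (Set.Iio s).indicator (fun _ => (1 : ℝ≥0∞)) t) := by
  refine ⟨fun t t' h => ?_, measurable_const.indicator measurableSet_Iio, fun t _ => ?_⟩
  · by_cases h' : t' < s
    · have h1 : t ∈ Set.Iio s := lt_of_le_of_lt h h'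
      have h2 : t' ∈ Set.Iio s := h'
      show (Set.Iio s).indicator _ t' ≤ (Set.Iio s).indicator _ t
      rw [Set.indicator_of_mem h1, Set.indicator_of_mem h2]
    · have h2 : t' ∉ Set.Iio s := h'
      show (Set.Iio s).indicator _ t' ≤ (Set.Iio s).indicator _ t
      rw [Set.indicator_of_notMem h2]
      exact zero_le
  · exact Set.indicator_le_self' (fun _ _ => zero_le) t

theorem sup_anti {u : ℝ → ℝ≥0∞} (hu : Prof u) (S : List V → Prop) {x y : Sym2 V → ℝ}
    (h : ∀ e, x e ≤ y e) : (⨆ l : List V, ⨆ _ : S l, u (cost y l)) ≤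
      ⨆ l : List V, ⨆ _ : S l, u (cost x l) :=
  iSup₂_mono fun l _ => hu.anti (cost_mono h l)

theorem sup_le_one {u : ℝ → ℝ≥0∞} (hu : Prof u) (S : List V → Prop) {x : Sym2 V → ℝ}
    (h : ∀ e, 0 ≤ x e) : (⨆ l : List V, ⨆ _ : S l, u (cost x l)) ≤ 1 :=
  iSup₂_le fun l _ => hu.le_one _ (cost_nonneg h l)

theorem meas_sup' {Ω' : Type} {m : MeasurableSpace Ω'} {Y : Sym2 V → Ω' → ℝ} {u : ℝ → ℝ≥0∞}
    (hu : Prof u) (S : List V → Prop) (h : ∀ e, Measurable[m] (Y e)) :
    Measurable[m] fun ω => ⨆ l : List V, ⨆ _ : S l, u (cost (fun e => Y e ω) l) := by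
  refine Measurable.iSup fun l => ?_
  by_cases hl : S l
  · simp only [hl, iSup_pos]
    exact hu.meas.comp (meas_cost fun e _ => h e)
  · simp only [hl]
    simp

/-- the integral over `Ω` of a functional of finitely many weights -/
theorem int_fin (hX : Iid X) (F : Finset (Sym2 V)) (G : (Sym2 V → ℝ) → ℝ≥0∞)
    (hG : Measurable fun y : Fin F.card → ℝ => G (fun e => max (ext F y e) 0))
    (hF : ∀ x y : Sym2 V → ℝ, (∀ e ∈ F, x e = y e) → G x = G y) :
    ∫⁻ ω, G (env X ω) ∂(volume : Measure Ω) =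
      ∫⁻ y, G (fun e => max (ext F y e) 0) ∂(Measure.pi fun _ : Fin F.card => expMeasure 1) := by
  obtain ⟨Y, hY⟩ : ∃ Y : Ω → Fin F.card → ℝ,
      Y = fun ω i => X (F.equivFin.symm i : Sym2 (ℤ × ℤ)) ω := ⟨_, rfl⟩
  have hYm : Measurable Y := by
    rw [hY]
    exact measurable_pi_lambda _ fun i => hX.meas _
  have hinj : Function.Injective fun i : Fin F.card => (F.equivFin.symm i : Sym2 (ℤ × ℤ)) :=
    Subtype.val_injective.comp F.equivFin.symm.injective
  have hlaw : Measure.map Y (volume : Measure Ω) =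
      Measure.pi fun _ : Fin F.card => expMeasure 1 := by
    have hi : iIndepFun (fun i : Fin F.card => X (F.equivFin.symm i : Sym2 (ℤ × ℤ)))
        (volume : Measure Ω) := hX.ind.precomp hinj
    have h3 := (iIndepFun_iff_map_fun_eq_pi_map
      (fun i : Fin F.card => (hX.meas (F.equivFin.symm i : Sym2 (ℤ × ℤ))).aemeasurable)).1 hi
    rw [hY, h3]
    congr 1
    funext i
    exact hX.law _
  rw [← hlaw, lintegral_map hG hYm]
  refine lintegral_congr_ae ?_
  filter_upwards [cAE Ω X hX] with ω hω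
  refine hF _ _ fun e he => ?_
  have h1 := ext_of_mem F (env X ω) e he
  have h2 : ext F (Y ω) e = env X ω e := by
    rw [hY]
    exact h1
  rw [h2, max_eq_left (hω e)]

theorem haspos : IsProbabilityMeasure (expMeasure 1) := isProbabilityMeasure_expMeasure one_pos

/-- Harris' inequality for finitely many paths -/
theorem fkg_fin (hX : Iid X) {u u' : ℝ → ℝ≥0∞} (hu : Prof u) (hu' : Prof u') (S T : List V → Prop)
    (hS : {l | S l}.Finite) (hT : {l | T l}.Finite) :
    (∫⁻ ω, (⨆ l : List V, ⨆ _ : S l, u (cost (env X ω) l)) ∂(volume : Measure Ω)) *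
      (∫⁻ ω, (⨆ l : List V, ⨆ _ : T l, u' (cost (env X ω) l)) ∂(volume : Measure Ω)) ≤
    ∫⁻ ω, (⨆ l : List V, ⨆ _ : S l, u (cost (env X ω) l)) *
      (⨆ l : List V, ⨆ _ : T l, u' (cost (env X ω) l)) ∂(volume : Measure Ω) := by
  classical
  haveI := haspos
  obtain ⟨F, hF⟩ : ∃ F : Finset (Sym2 V), ∀ l, (S l ∨ T l) → ∀ e ∈ edg l, e ∈ F := by
    refine ⟨(hS.toFinset ∪ hT.toFinset).biUnion fun l => (edg l).toFinset, fun l h e he => ?_⟩
    refine Finset.mem_biUnion.2 ⟨l, ?_, List.mem_toFinset.2 he⟩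
    rcases h with h | h
    · exact Finset.mem_union_left _ (hS.mem_toFinset.2 h)
    · exact Finset.mem_union_right _ (hT.mem_toFinset.2 h)
  obtain ⟨f, hf⟩ : ∃ f : (Sym2 V → ℝ) → ℝ≥0∞,
      f = fun x => ⨆ l : List V, ⨆ _ : S l, u (cost x l) := ⟨_, rfl⟩
  obtain ⟨g, hg⟩ : ∃ g : (Sym2 V → ℝ) → ℝ≥0∞,
      g = fun x => ⨆ l : List V, ⨆ _ : T l, u' (cost x l) := ⟨_, rfl⟩
  have hcost : ∀ (x y : Sym2 V → ℝ), (∀ e ∈ F, x e = y e) → ∀ l, (S l ∨ T l) →
      cost x l = cost y l := by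
    intro x y h l hl
    unfold cost
    congr 1
    exact List.map_congr_left fun e he => h e (hF l hl e he)
  have hfF : ∀ x y : Sym2 V → ℝ, (∀ e ∈ F, x e = y e) → f x = f y := by
    intro x y h
    rw [hf]
    exact iSup_congr fun l => iSup_congr fun hl => by rw [hcost x y h l (Or.inl hl)]
  have hgF : ∀ x y : Sym2 V → ℝ, (∀ e ∈ F, x e = y e) → g x = g y := by
    intro x y h
    rw [hg]
    exact iSup_congr fun l => iSup_congr fun hl => by rw [hcost x y h l (Or.inr hl)]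
  have hYm : ∀ e : Sym2 V, Measurable fun y : Fin F.card → ℝ => max (ext F y e) 0 := fun e =>
    (ext_cont F e).measurable.max measurable_const
  have mf : Measurable fun y : Fin F.card → ℝ => f (fun e => max (ext F y e) 0) := by
    rw [hf]
    exact meas_sup' (Y := fun e y => max (ext F y e) 0) hu S hYm
  have mg : Measurable fun y : Fin F.card → ℝ => g (fun e => max (ext F y e) 0) := by
    rw [hg]
    exact meas_sup' (Y := fun e y => max (ext F y e) 0) hu' T hYm
  have hf1 : ∀ y : Fin F.card → ℝ, f (fun e => max (ext F y e) 0) ≤ 1 := fun y => by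
    rw [hf]
    exact sup_le_one hu S fun e => le_max_right _ _
  have hg1 : ∀ y : Fin F.card → ℝ, g (fun e => max (ext F y e) 0) ≤ 1 := fun y => by
    rw [hg]
    exact sup_le_one hu' T fun e => le_max_right _ _
  have hext : ∀ y y' : Fin F.card → ℝ, (∀ i, y i ≤ y' i) → ∀ e,
      max (ext F y e) 0 ≤ max (ext F y' e) 0 := by
    intro y y' h e
    refine max_le_max ?_ le_rfl
    unfold Pool.Agent.N36.FL.ext
    split
    · exact h _
    · exact le_rfl
  have anti_f : ∀ y y' : Fin F.card → ℝ, (∀ i, y i ≤ y' i) →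
      f (fun e => max (ext F y' e) 0) ≤ f (fun e => max (ext F y e) 0) := by
    intro y y' h
    rw [hf]
    exact sup_anti hu S (hext y y' h)
  have anti_g : ∀ y y' : Fin F.card → ℝ, (∀ i, y i ≤ y' i) →
      g (fun e => max (ext F y' e) 0) ≤ g (fun e => max (ext F y e) 0) := by
    intro y y' h
    rw [hg]
    exact sup_anti hu' T (hext y y' h)
  -- the real functions
  obtain ⟨fr, hfr⟩ : ∃ fr : (Fin F.card → ℝ) → ℝ,
      fr = fun y => (f (fun e => max (ext F y e) 0)).toReal := ⟨_, rfl⟩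
  obtain ⟨gr, hgr⟩ : ∃ gr : (Fin F.card → ℝ) → ℝ,
      gr = fun y => (g (fun e => max (ext F y e) 0)).toReal := ⟨_, rfl⟩
  have mfr : Measurable fr := by rw [hfr]; exact mf.ennreal_toReal
  have mgr : Measurable gr := by rw [hgr]; exact mg.ennreal_toReal
  have fr01 : ∀ y, 0 ≤ fr y ∧ fr y ≤ 1 := fun y => by
    rw [hfr]
    exact ⟨ENNReal.toReal_nonneg, ENNReal.toReal_le_of_le_ofReal zero_le_one (by simpa using hf1 y)⟩
  have gr01 : ∀ y, 0 ≤ gr y ∧ gr y ≤ 1 := fun y => by
    rw [hgr]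
    exact ⟨ENNReal.toReal_nonneg, ENNReal.toReal_le_of_le_ofReal zero_le_one (by simpa using hg1 y)⟩
  have ftop : ∀ y : Fin F.card → ℝ, f (fun e => max (ext F y e) 0) ≠ ⊤ := fun y =>
    ((hf1 y).trans_lt ENNReal.one_lt_top).ne
  have gtop : ∀ y : Fin F.card → ℝ, g (fun e => max (ext F y e) 0) ≠ ⊤ := fun y =>
    ((hg1 y).trans_lt ENNReal.one_lt_top).ne
  have frA : ∀ y y' : Fin F.card → ℝ, (∀ i, y i ≤ y' i) → fr y' ≤ fr y := fun y y' h => by
    rw [hfr]
    exact ENNReal.toReal_mono (ftop _) (anti_f y y' h)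
  have grA : ∀ y y' : Fin F.card → ℝ, (∀ i, y i ≤ y' i) → gr y' ≤ gr y := fun y y' h => by
    rw [hgr]
    exact ENNReal.toReal_mono (gtop _) (anti_g y y' h)
  obtain ⟨P, hP⟩ : ∃ P : Measure (Fin F.card → ℝ), P = Measure.pi fun _ => expMeasure 1 := ⟨_, rfl⟩
  haveI : IsProbabilityMeasure P := by rw [hP]; infer_instance
  have hHR : JabsHR P (fun x y => ∀ i, x i ≤ y i) (fun x y => ∀ i, x i ≤ y i) := by
    rw [hP]
    refine JabsHR.pi _ (expMeasure 1) (fun _ => (· ≤ ·)) (fun _ => (· ≤ ·)) (fun i => ?_)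
      (fun _ _ => le_rfl) (fun _ _ => le_rfl)
    refine JabsHR.total _ _ _ fun x y => ?_
    rcases le_total x y with h | h
    · exact Or.inl ⟨h, h⟩
    · exact Or.inr ⟨h, h⟩
  have key := hHR (fun y => 1 - fr y) gr (measurable_const.sub mfr) mgr
    (fun y => ⟨by linarith [(fr01 y).2], by linarith [(fr01 y).1]⟩) gr01
    (fun y y' h => by linarith [frA y y' h]) grA
  have iF : Integrable fr P := Pool.Agent.H374.jabs_int mfr fr01
  have iG : Integrable gr P := Pool.Agent.H374.jabs_int mgr gr01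
  have iFG : Integrable (fun y => fr y * gr y) P :=
    Pool.Agent.H374.jabs_int (mfr.mul mgr) (Pool.Agent.H374.jabs_mul_mem fr01 gr01)
  have e1 : ∫ y, (1 - fr y) * gr y ∂P = ∫ y, gr y ∂P - ∫ y, fr y * gr y ∂P := by
    rw [← integral_sub iG iFG]
    refine integral_congr_ae (Eventually.of_forall fun y => ?_)
    show (1 - fr y) * gr y = gr y - fr y * gr y
    ring
  have e2 : ∫ y, (1 - fr y) ∂P = 1 - ∫ y, fr y ∂P := by
    rw [integral_sub (integrable_const _) iF]
    simp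
  rw [e1, e2] at key
  have key2 : (∫ y, fr y ∂P) * (∫ y, gr y ∂P) ≤ ∫ y, fr y * gr y ∂P := by linarith
  -- back to the lower integrals
  have c1 : ∫⁻ y, f (fun e => max (ext F y e) 0) ∂P = ENNReal.ofReal (∫ y, fr y ∂P) := by
    rw [ofReal_integral_eq_lintegral_ofReal iF (Eventually.of_forall fun y => (fr01 y).1)]
    refine lintegral_congr fun y => ?_
    rw [hfr]
    exact (ENNReal.ofReal_toReal (ftop y)).symm
  have c2 : ∫⁻ y, g (fun e => max (ext F y e) 0) ∂P = ENNReal.ofReal (∫ y, gr y ∂P) := by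
    rw [ofReal_integral_eq_lintegral_ofReal iG (Eventually.of_forall fun y => (gr01 y).1)]
    refine lintegral_congr fun y => ?_
    rw [hgr]
    exact (ENNReal.ofReal_toReal (gtop y)).symm
  have c3 : ∫⁻ y, f (fun e => max (ext F y e) 0) * g (fun e => max (ext F y e) 0) ∂P =
      ENNReal.ofReal (∫ y, fr y * gr y ∂P) := by
    rw [ofReal_integral_eq_lintegral_ofReal iFG
      (Eventually.of_forall fun y => mul_nonneg (fr01 y).1 (gr01 y).1)]
    refine lintegral_congr fun y => ?_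
    rw [ENNReal.ofReal_mul (fr01 y).1, hfr, hgr]
    simp only
    rw [ENNReal.ofReal_toReal (ftop y), ENNReal.ofReal_toReal (gtop y)]
  have d1 := int_fin hX F f mf hfF
  have d2 := int_fin hX F g mg hgF
  have d3 := int_fin hX F (fun x => f x * g x) (mf.mul mg) (fun x y h => by
    simp only [hfF x y h, hgF x y h])
  rw [← hP] at d1 d2 d3
  have hfx : ∀ x, f x = ⨆ l : List V, ⨆ _ : S l, u (cost x l) := fun x => by rw [hf]
  have hgx : ∀ x, g x = ⨆ l : List V, ⨆ _ : T l, u' (cost x l) := fun x => by rw [hg]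
  simp only [← hfx, ← hgx]
  rw [d1, d2, d3, c1, c2, c3, ← ENNReal.ofReal_mul (integral_nonneg fun y => (fr01 y).1)]
  exact ENNReal.ofReal_le_ofReal key2

/-- the supremum of the profile `u` over the paths from `a` to `v` -/
noncomputable def Su (u : ℝ → ℝ≥0∞) (v a : V) (x : Sym2 V → ℝ) : ℝ≥0∞ :=
  ⨆ l : List V, ⨆ _ : Pa v (a :: l), u (cost x (a :: l))

/-- finitely many of the paths from `a` to `v` -/
def SN (v a : V) (N : ℕ) (l : List V) : Prop := (∃ m, l = a :: m) ∧ Pa v l ∧ Encodable.encode l ≤ N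

theorem SN_fin (v a : V) (N : ℕ) : {l | SN v a N l}.Finite := by
  have h : ((fun l : List V => Encodable.encode l) ⁻¹' (Set.Iic N)).Finite :=
    (Set.finite_Iic N).preimage (Encodable.encode_injective.injOn)
  exact h.subset fun l hl => hl.2.2

theorem Su_eq (u : ℝ → ℝ≥0∞) (v a : V) (x : Sym2 V → ℝ) :
    Su u v a x = ⨆ N : ℕ, ⨆ l : List V, ⨆ _ : SN v a N l, u (cost x l) := by
  refine le_antisymm (iSup₂_le fun l h => ?_) (iSup_le fun N => iSup₂_le fun l h => ?_)
  · exact le_iSup_of_le (Encodable.encode (a :: l))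
      (le_iSup₂_of_le (a :: l) ⟨⟨l, rfl⟩, h, le_rfl⟩ le_rfl)
  · obtain ⟨⟨m, rfl⟩, h2, _⟩ := h
    exact le_iSup₂_of_le m h2 le_rfl

/-- Harris' inequality for two passage times -/
theorem fkg (hX : Iid X) {u u' : ℝ → ℝ≥0∞} (hu : Prof u) (hu' : Prof u') (v a v' a' : V) :
    (∫⁻ ω, Su u v a (env X ω) ∂(volume : Measure Ω)) *
      (∫⁻ ω, Su u' v' a' (env X ω) ∂(volume : Measure Ω)) ≤
    ∫⁻ ω, Su u v a (env X ω) * Su u' v' a' (env X ω) ∂(volume : Measure Ω) := by
  have hm : ∀ (u : ℝ → ℝ≥0∞) (_ : Prof u) (v a : V) (N : ℕ), Measurable fun ω =>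
      ⨆ l : List V, ⨆ _ : SN v a N l, u (cost (env X ω) l) := fun u hu v a N =>
    meas_sup' (Y := X) hu _ fun e => hX.meas e
  have hmono : ∀ (u : ℝ → ℝ≥0∞) (v a : V), Monotone fun (N : ℕ) (ω : Ω) =>
      ⨆ l : List V, ⨆ _ : SN v a N l, u (cost (env X ω) l) := by
    intro u v a N M h ω
    exact iSup_mono fun l => iSup_le fun hl =>
      le_iSup_of_le (i := (⟨hl.1, hl.2.1, hl.2.2.trans h⟩ : SN v a M l)) le_rfl
  have e1 : ∀ (u : ℝ → ℝ≥0∞) (_ : Prof u) (v a : V),
      ∫⁻ ω, Su u v a (env X ω) ∂(volume : Measure Ω) = ⨆ N : ℕ, ∫⁻ ω, (⨆ l : List V,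
        ⨆ _ : SN v a N l, u (cost (env X ω) l)) ∂(volume : Measure Ω) := by
    intro u hu v a
    rw [← lintegral_iSup (hm u hu v a) (hmono u v a)]
    exact lintegral_congr fun ω => Su_eq u v a _
  rw [e1 u hu, e1 u' hu', ENNReal.iSup_mul]
  refine iSup_le fun N => ?_
  rw [ENNReal.mul_iSup]
  refine iSup_le fun M => ?_
  have i1 : ∫⁻ ω, (⨆ l : List V, ⨆ _ : SN v a N l, u (cost (env X ω) l)) ∂(volume : Measure Ω) ≤
      ∫⁻ ω, (⨆ l : List V, ⨆ _ : SN v a (max N M) l, u (cost (env X ω) l))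
        ∂(volume : Measure Ω) :=
    lintegral_mono fun ω => hmono u v a (le_max_left N M) ω
  have i2 : ∫⁻ ω, (⨆ l : List V, ⨆ _ : SN v' a' M l, u' (cost (env X ω) l))
        ∂(volume : Measure Ω) ≤
      ∫⁻ ω, (⨆ l : List V, ⨆ _ : SN v' a' (max N M) l, u' (cost (env X ω) l))
        ∂(volume : Measure Ω) :=
    lintegral_mono fun ω => hmono u' v' a' (le_max_right N M) ω
  refine (mul_le_mul' i1 i2).trans ((fkg_fin hX hu hu' _ _ (SN_fin v a _) (SN_fin v' a' _)).trans
    (lintegral_mono fun ω => mul_le_mul' ?_ ?_))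
  · rw [Su_eq]
    exact le_iSup (fun N : ℕ => ⨆ l : List V, ⨆ _ : SN v a N l, u (cost (env X ω) l)) (max N M)
  · rw [Su_eq]
    exact le_iSup (fun N : ℕ => ⨆ l : List V, ⨆ _ : SN v' a' N l, u' (cost (env X ω) l)) (max N M)

end Pool.Agent.U874.FP
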