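import Pool.Agent.U874.FP.Geo

/-!
# One step of the induction over the Laplace parameter
-/

set_option autoImplicit false
open MeasureTheory ProbabilityTheory Filter Set
open scoped ENNReal Topology

namespace Pool.Agent.U874.FP

open Pool.Agent.N662.FP

set_option linter.unusedSectionVars false

variable {Ω : Type} [MeasureSpace Ω] [IsProbabilityMeasure (volume : Measure Ω)]
  {X : Sym2 (ℤ × ℤ) → Ω → ℝ}

theorem phi_le_one (hX : Iid X) {lam : ℝ} (hl : 0 ≤ lam) (v a : V) : phi X lam v a ≤ 1 := by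
  calc phi X lam v a ≤ ∫⁻ _, 1 ∂(volume : Measure Ω) := by
        refine lintegral_mono_ae ?_
        filter_upwards [cAE Ω X hX] with ω hω
        exact iSup₂_le fun l _ => ex_le_one hl (cost_nonneg hω _)
    _ = 1 := by simp

theorem phi_le_pow (hX : Iid X) {lam : ℝ} (hl : 0 ≤ lam) (μ : Seminorm ℝ (ℝ × ℝ)) {B : Set V}
    {D : Finset V} (hD : ∀ a ∈ B, ∀ b, b ∉ B → Nb a b → b ∈ D) (h0 : (0 : V) ∈ B) {ρ : ℝ}
    (hρ : 0 ≤ ρ) (hB : ∀ a ∈ B, μ (em a) ≤ ρ) (hDρ : ∀ z ∈ D, μ (em z) ≤ ρ) {q : ℝ≥0∞}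
    (hq : (∫⁻ ω, Io lam B 0 (env X ω) ∂(volume : Measure Ω)) * (D.card : ℝ≥0∞) ≤ q) :
    ∀ (k : ℕ) (w : V), (k : ℝ) * ρ < μ (em w) → phi X lam w 0 ≤ q ^ k := by
  intro k
  induction k with
  | zero => intro w _; simpa using phi_le_one hX hl w 0
  | succ k ih =>
    intro w hw
    push_cast at hw
    have hk : 0 ≤ (k : ℝ) * ρ := mul_nonneg (Nat.cast_nonneg k) hρ
    have hwB : w ∉ B := fun h => by
      have := hB w h
      linarith
    refine (hsl hX hl hD hwB h0).trans ?_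
    have h1 : ∑ z ∈ D, phi X lam w z ≤ ∑ _z ∈ D, q ^ k := by
      refine Finset.sum_le_sum fun z hz => ?_
      have e : phi X lam w z = phi X lam (w - z) 0 := by
        rw [← phi_shift hX hl z (w - z)]
        congr 1
        abel
      rw [e]
      refine ih _ ?_
      have h2 : μ (em w) ≤ μ (em (w - z)) + μ (em z) := by
        have : em w = em (w - z) + em z := by rw [em_sub]; abel
        rw [this]
        exact map_add_le_add μ _ _
      have h3 := hDρ z hz
      linarith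
    calc (∫⁻ ω, Io lam B 0 (env X ω) ∂(volume : Measure Ω)) * ∑ z ∈ D, phi X lam w z
        ≤ (∫⁻ ω, Io lam B 0 (env X ω) ∂(volume : Measure Ω)) * ∑ _z ∈ D, q ^ k := by gcongr
      _ = ((∫⁻ ω, Io lam B 0 (env X ω) ∂(volume : Measure Ω)) * (D.card : ℝ≥0∞)) * q ^ k := by
          rw [Finset.sum_const, nsmul_eq_mul, mul_assoc]
      _ ≤ q * q ^ k := by gcongr
      _ = q ^ (k + 1) := by rw [pow_succ, mul_comm]

/-- the estimate without a constant in front -/
theorem phi_exp (hX : Iid X) {lam : ℝ} (hl : 0 ≤ lam) (μ : Seminorm ℝ (ℝ × ℝ)) {h ρ : ℝ}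
    (hh : 0 ≤ h) (hρ : 0 < ρ)
    (H : ∀ (k : ℕ) (w : V), (k : ℝ) * ρ < μ (em w) →
      phi X lam w 0 ≤ (ENNReal.ofReal (Real.exp (-h))) ^ k) (w : V) :
    phi X lam w 0 ≤ ENNReal.ofReal (Real.exp (-(h / ρ * μ (em w)))) := by
  have hμ0 : 0 ≤ μ (em w) := apply_nonneg μ _
  rcases eq_or_lt_of_le hμ0 with h0 | h0
  · rw [← h0]
    simpa using phi_le_one hX hl w 0
  obtain ⟨p, hp⟩ : ∃ p : ℝ, p = (phi X lam w 0).toReal := ⟨_, rfl⟩
  have htop : phi X lam w 0 ≠ ⊤ := ((phi_le_one hX hl w 0).trans_lt ENNReal.one_lt_top).ne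
  have hp0 : 0 ≤ p := by rw [hp]; exact ENNReal.toReal_nonneg
  have hpe : phi X lam w 0 = ENNReal.ofReal p := by rw [hp, ENNReal.ofReal_toReal htop]
  rw [hpe]
  refine ENNReal.ofReal_le_ofReal ?_
  have key : ∀ n : ℕ, p ≤ Real.exp (-(h / ρ * μ (em w)) + h / ((n : ℝ) + 1)) := by
    intro n
    obtain ⟨N, hN⟩ : ∃ N : ℕ, N = n + 1 := ⟨_, rfl⟩
    have hNr : (N : ℝ) = n + 1 := by rw [hN]; push_cast; ring
    have hN0 : (0 : ℝ) < N := by rw [hNr]; positivity
    obtain ⟨x, hx⟩ : ∃ x : ℝ, x = N * μ (em w) / ρ := ⟨_, rfl⟩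
    have hx0 : 0 < x := by rw [hx]; positivity
    have hc : 0 < ⌈x⌉₊ := Nat.ceil_pos.2 hx0
    obtain ⟨k, hk⟩ : ∃ k : ℕ, ⌈x⌉₊ = k + 1 := ⟨⌈x⌉₊ - 1, by omega⟩
    have hk1 : (k : ℝ) < x := Nat.lt_ceil.1 (by omega)
    have hk2 : x ≤ k + 1 := by
      have := Nat.le_ceil x
      rw [hk] at this
      push_cast at this
      exact this
    have hμN : μ (em ((N : ℤ) • w)) = N * μ (em w) := by
      rw [em_smul, map_smul_eq_mul, Real.norm_of_nonneg hN0.le]
    have h1 := H k ((N : ℤ) • w) (by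
      rw [hμN]
      rwa [hx, lt_div_iff₀ hρ] at hk1)
    have h2 := (phi_pow hX hl w N).trans h1
    rw [hpe, ← ENNReal.ofReal_pow hp0, ← ENNReal.ofReal_pow (Real.exp_pos _).le] at h2
    have h3 : p ^ N ≤ Real.exp (-h) ^ k :=
      (ENNReal.ofReal_le_ofReal_iff (pow_nonneg (Real.exp_pos _).le _)).1 h2
    have h4 : Real.exp (-h) ^ k ≤
        (Real.exp (-(h / ρ * μ (em w)) + h / ((n : ℝ) + 1))) ^ N := by
      rw [← Real.exp_nat_mul, ← Real.exp_nat_mul, Real.exp_le_exp]
      have e1 : (N : ℝ) * (-(h / ρ * μ (em w)) + h / ((n : ℝ) + 1)) = -(h * x) + h := by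
        rw [hx, ← hNr]
        field_simp
      rw [e1]
      nlinarith
    exact le_of_pow_le_pow_left₀ (by omega) (Real.exp_pos _).le (h3.trans h4)
  have hlim : Tendsto (fun n : ℕ => Real.exp (-(h / ρ * μ (em w)) + h / ((n : ℝ) + 1))) atTop
      (𝓝 (Real.exp (-(h / ρ * μ (em w)) + h * 0))) := by
    refine (Real.continuous_exp.tendsto _).comp (Tendsto.const_add _ ?_)
    have h1 := (tendsto_one_div_add_atTop_nhds_zero_nat (𝕜 := ℝ)).const_mul h
    refine h1.congr fun n => ?_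
    ring
  rw [mul_zero, add_zero] at hlim
  exact ge_of_tendsto' hlim key

/-- the square of the exit functional -/
theorem Io_sq {lam : ℝ} (hl : 0 ≤ lam) {B : Set V} {D : Finset V}
    (hD : ∀ a ∈ B, ∀ b, b ∉ B → Nb a b → b ∈ D) {a : V} (ha : a ∈ B) (x : Sym2 V → ℝ) :
    Io lam B a x * Io lam B a x ≤ ∑ y ∈ D, W (2 * lam) y a x := by
  have h2 : ∀ l, Ex B (a :: l) →
      ex lam (cost x (a :: l)) * ex lam (cost x (a :: l)) ≤ ∑ y ∈ D, W (2 * lam) y a x := by
    intro l hlE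
    obtain ⟨y, hy1, hy2, hy3⟩ := Ex.end hD hlE
    have e : ex lam (cost x (a :: l)) * ex lam (cost x (a :: l)) =
        ex (2 * lam) (cost x (a :: l)) := by
      unfold ex
      rw [← ENNReal.ofReal_mul (Real.exp_pos _).le, ← Real.exp_add]
      congr 2
      ring
    rw [e]
    exact (le_W hy2).trans (Finset.single_le_sum (f := fun y => W (2 * lam) y a x)
      (fun _ _ => zero_le) (hy3 ha))
  conv_lhs => unfold Io
  rw [ENNReal.iSup_mul]
  refine iSup_le fun l => ?_
  rw [ENNReal.iSup_mul]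
  refine iSup_le fun hlE => ?_
  rw [ENNReal.mul_iSup]
  refine iSup_le fun m => ?_
  rw [ENNReal.mul_iSup]
  refine iSup_le fun hmE => ?_
  rcases le_total (cost x (a :: l)) (cost x (a :: m)) with h | h
  · exact (mul_le_mul' le_rfl (ex_anti hl h)).trans (h2 l hlE)
  · exact (mul_le_mul' (ex_anti hl h) le_rfl).trans (h2 m hmE)

/-- the mean of the exit functional -/
theorem Io_bound (hX : Iid X) {lam : ℝ} (hl : 0 ≤ lam) {B : Set V} {D : Finset V}
    (hD : ∀ a ∈ B, ∀ b, b ∉ B → Nb a b → b ∈ D) {a : V} (ha : a ∈ B) (t θ : ℝ) (hθ : 0 < θ) :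
    ∫⁻ ω, Io lam B a (env X ω) ∂(volume : Measure Ω) ≤
      ex lam t + ENNReal.ofReal θ * (∑ y ∈ D, phi X (2 * lam) y a) +
        ENNReal.ofReal (1 / θ) *
          (volume : Measure Ω) {ω | ∃ y : V, y ∉ B ∧ D.card ≠ 0 ∧
            Pool.Agent.N662.FP.D (env X ω) a y < t} := by
  obtain ⟨E, hE⟩ : ∃ E : Set Ω, E = {ω | ex lam t < Io lam B a (env X ω)} := ⟨_, rfl⟩
  have hEm : MeasurableSet E := by
    rw [hE]
    exact measurableSet_lt measurable_const (meas_Io hX lam B a)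
  have hpt : ∀ ω, Io lam B a (env X ω) ≤ ex lam t +
      (ENNReal.ofReal θ * ∑ y ∈ D, W (2 * lam) y a (env X ω)) +
      E.indicator (fun _ => ENNReal.ofReal (1 / θ)) ω := by
    intro ω
    by_cases h : ω ∈ E
    · rw [Set.indicator_of_mem h]
      rcases le_total (Io lam B a (env X ω)) (ENNReal.ofReal (1 / θ)) with h1 | h1
      · exact h1.trans le_add_self
      · refine le_trans ?_ (le_self_add (b := ENNReal.ofReal (1 / θ)))
        refine le_trans ?_ (le_add_self (b := ex lam t))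
        have h2 : (1 : ℝ≥0∞) ≤ ENNReal.ofReal θ * Io lam B a (env X ω) := by
          calc (1 : ℝ≥0∞) = ENNReal.ofReal θ * ENNReal.ofReal (1 / θ) := by
                rw [← ENNReal.ofReal_mul hθ.le, mul_one_div_cancel hθ.ne', ENNReal.ofReal_one]
            _ ≤ _ := by gcongr
        calc Io lam B a (env X ω) = 1 * Io lam B a (env X ω) := (one_mul _).symm
          _ ≤ (ENNReal.ofReal θ * Io lam B a (env X ω)) * Io lam B a (env X ω) := by gcongr
          _ = ENNReal.ofReal θ * (Io lam B a (env X ω) * Io lam B a (env X ω)) := mul_assoc _ _ _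
          _ ≤ _ := by
              gcongr
              exact Io_sq hl hD ha _
    · have h1 : Io lam B a (env X ω) ≤ ex lam t := by
        rw [hE] at h
        exact not_lt.1 h
      refine h1.trans ?_
      rw [add_assoc]
      exact le_self_add
  have hsub : (volume : Measure Ω) E ≤ (volume : Measure Ω) {ω | ∃ y : V, y ∉ B ∧ D.card ≠ 0 ∧
      Pool.Agent.N662.FP.D (env X ω) a y < t} := by
    refine measure_mono_ae ?_
    filter_upwards [cAE Ω X hX] with ω hω hωE
    have h1 : ex lam t < Io lam B a (env X ω) := by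
      have h2 : ω ∈ E := hωE
      rw [hE] at h2
      exact h2
    by_contra hcon
    have hcon' : ¬ ∃ y : V, y ∉ B ∧ D.card ≠ 0 ∧ Pool.Agent.N662.FP.D (env X ω) a y < t := hcon
    push Not at hcon'
    refine absurd h1 (not_lt.2 (Io_le hD ha fun y hy hyB => ?_))
    rw [W_eq cGE hl hω]
    refine ex_anti hl (hcon' y hyB ?_)
    exact Finset.card_ne_zero_of_mem hy
  have hWm : ∀ y, Measurable fun ω => W (2 * lam) y a (env X ω) := fun y => meas_W hX _ y a
  calc ∫⁻ ω, Io lam B a (env X ω) ∂(volume : Measure Ω)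
      ≤ ∫⁻ ω, (ex lam t + (ENNReal.ofReal θ * ∑ y ∈ D, W (2 * lam) y a (env X ω)) +
          E.indicator (fun _ => ENNReal.ofReal (1 / θ)) ω) ∂(volume : Measure Ω) :=
        lintegral_mono hpt
    _ = ex lam t + ENNReal.ofReal θ * (∑ y ∈ D, phi X (2 * lam) y a) +
          ENNReal.ofReal (1 / θ) * (volume : Measure Ω) E := by
        rw [lintegral_add_right _ (measurable_const.indicator hEm),
          lintegral_add_left measurable_const, lintegral_const, measure_univ, mul_one,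
          lintegral_const_mul _ (Finset.measurable_fun_sum D fun y _ => hWm y),
          lintegral_finsetSum _ fun y _ => hWm y, lintegral_indicator_const hEm]
        rfl
    _ ≤ _ := by gcongr

end Pool.Agent.U874.FP
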