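import Pool.Agent.U874.FP.Scale

/-!
# One scale: from the Laplace parameter `2 lam` to `lam`
-/

set_option autoImplicit false
open MeasureTheory ProbabilityTheory Filter Set
open scoped ENNReal Topology

namespace Pool.Agent.U874.FP

open Pool.Agent.N662.FP

set_option linter.unusedSectionVars false

variable {Ω : Type} [MeasureSpace Ω] [IsProbabilityMeasure (volume : Measure Ω)]
  {X : Sym2 (ℤ × ℤ) → Ω → ℝ}

theorem scale (hX : Iid X) (μ : Seminorm ℝ (ℝ × ℝ)) {c1 K R : ℝ} (hc1 : 0 ≤ c1) (hK : 0 < K)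
    (hR : 1 ≤ R) {Db : Finset V}
    (hD : ∀ a ∈ {v : V | μ (em v) ≤ R}, ∀ b, b ∉ {v : V | μ (em v) ≤ R} → Nb a b → b ∈ Db)
    (hDR : ∀ z ∈ Db, R < μ (em z) ∧ μ (em z) ≤ R + c1) (hDc : (Db.card : ℝ) ≤ K * R)
    {lam y y' t pE : ℝ} (hl : 0 < lam) (hy : 0 ≤ y) (hp : 0 < pE)
    (hA : ∀ w : V, phi X (2 * lam) w 0 ≤
      ENNReal.ofReal (Real.exp (-((2 * lam - y') * μ (em w)))))
    (hE : (volume : Measure Ω) {ω | ∃ v : V, R < μ (em v) ∧ D (env X ω) 0 v < t} ≤
      ENNReal.ofReal pE)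
    (h1 : pE * (K * R) * Real.exp (y' * R) ≤ 1)
    (h2 : lam * (R - t) ≤ 1)
    (h3 : Real.log (5 * K * R) + lam * c1 ≤ y * R) (w : V) :
    phi X lam w 0 ≤ ENNReal.ofReal (Real.exp (-((lam - y) * μ (em w)))) := by
  have hμ0 : 0 ≤ μ (em w) := apply_nonneg μ _
  rcases le_or_gt lam y with hly | hly
  · refine (phi_le_one hX hl.le w 0).trans ?_
    rw [← ENNReal.ofReal_one]
    refine ENNReal.ofReal_le_ofReal (Real.one_le_exp ?_)
    nlinarith
  have hR0 : 0 < R := by linarith
  have hKR : 0 < K * R := mul_pos hK hR0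
  have h5 : 0 < 5 * K * R := by positivity
  obtain ⟨h, hh⟩ : ∃ h : ℝ, h = lam * R - Real.log (5 * K * R) := ⟨_, rfl⟩
  have hh1 : (lam - y) * (R + c1) ≤ h := by
    rw [hh]
    nlinarith
  have hh0 : 0 ≤ h := le_trans (mul_nonneg (by linarith) (by linarith)) hh1
  have h0B : (0 : V) ∈ {v : V | μ (em v) ≤ R} := by
    show μ (em 0) ≤ R
    have : em (0 : V) = 0 := by
      unfold Pool.Agent.N662.FP.em
      ext <;> simp
    rw [this, map_zero]
    exact hR0.le
  obtain ⟨θ, hθ⟩ : ∃ θ : ℝ, θ = pE * Real.exp (lam * R) := ⟨_, rfl⟩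
  have hθ0 : 0 < θ := by rw [hθ]; positivity
  have hI := Io_bound hX hl.le hD h0B t θ hθ0
  have hcard : (Db.card : ℝ≥0∞) ≤ ENNReal.ofReal (K * R) := by
    rw [← ENNReal.ofReal_natCast]
    exact ENNReal.ofReal_le_ofReal hDc
  have hsum : ∑ z ∈ Db, phi X (2 * lam) z 0 ≤
      ENNReal.ofReal (K * R * Real.exp (-((2 * lam - y') * R))) := by
    have h6 : ∀ z ∈ Db, phi X (2 * lam) z 0 ≤
        ENNReal.ofReal (Real.exp (-((2 * lam - y') * R))) := by
      intro z hz
      rcases le_total 0 (2 * lam - y') with h7 | h7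
      · refine (hA z).trans (ENNReal.ofReal_le_ofReal (Real.exp_le_exp.2 ?_))
        have := mul_le_mul_of_nonneg_left (hDR z hz).1.le h7
        linarith
      · refine (phi_le_one hX (by linarith) z 0).trans ?_
        rw [← ENNReal.ofReal_one]
        refine ENNReal.ofReal_le_ofReal (Real.one_le_exp ?_)
        nlinarith
    refine (Finset.sum_le_sum h6).trans ?_
    rw [Finset.sum_const, nsmul_eq_mul, ENNReal.ofReal_mul hKR.le]
    gcongr
  have hsub : (volume : Measure Ω) {ω | ∃ y : V, y ∉ {v : V | μ (em v) ≤ R} ∧ Db.card ≠ 0 ∧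
      D (env X ω) 0 y < t} ≤ ENNReal.ofReal pE := by
    refine (measure_mono ?_).trans hE
    rintro ω ⟨z, hz1, _, hz2⟩
    exact ⟨z, not_le.1 hz1, hz2⟩
  have e1 : Real.exp (-(lam * t)) ≤ 3 * Real.exp (-(lam * R)) := by
    have h7 : Real.exp (-(lam * t)) ≤ Real.exp (1 + -(lam * R)) := by
      rw [Real.exp_le_exp]
      linarith
    rw [Real.exp_add] at h7
    have h8 : Real.exp 1 ≤ 3 := by
      have := Real.exp_one_lt_d9
      linarith
    exact h7.trans (mul_le_mul_of_nonneg_right h8 (Real.exp_pos _).le)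
  have e2 : θ * (K * R * Real.exp (-((2 * lam - y') * R))) ≤ Real.exp (-(lam * R)) := by
    have h7 : θ * (K * R * Real.exp (-((2 * lam - y') * R))) =
        (pE * (K * R) * Real.exp (y' * R)) * Real.exp (-(lam * R)) := by
      rw [hθ]
      have h8 : Real.exp (lam * R) * Real.exp (-((2 * lam - y') * R)) =
          Real.exp (y' * R) * Real.exp (-(lam * R)) := by
        rw [← Real.exp_add, ← Real.exp_add]
        congr 1
        ring
      calc pE * Real.exp (lam * R) * (K * R * Real.exp (-((2 * lam - y') * R)))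
          = pE * (K * R) * (Real.exp (lam * R) * Real.exp (-((2 * lam - y') * R))) := by ring
        _ = _ := by rw [h8]; ring
    rw [h7]
    exact (mul_le_mul_of_nonneg_right h1 (Real.exp_pos _).le).trans (one_mul _).le
  have e3 : 1 / θ * pE = Real.exp (-(lam * R)) := by
    rw [hθ, Real.exp_neg]
    field_simp
  have hI2 : ∫⁻ ω, Io lam {v : V | μ (em v) ≤ R} 0 (env X ω) ∂(volume : Measure Ω) ≤
      ENNReal.ofReal (5 * Real.exp (-(lam * R))) := by
    refine hI.trans ?_
    calc ex lam t + ENNReal.ofReal θ * (∑ y ∈ Db, phi X (2 * lam) y 0) +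
          ENNReal.ofReal (1 / θ) * (volume : Measure Ω) {ω | ∃ y : V,
            y ∉ {v : V | μ (em v) ≤ R} ∧ Db.card ≠ 0 ∧ D (env X ω) 0 y < t}
        ≤ ENNReal.ofReal (Real.exp (-(lam * t))) +
            ENNReal.ofReal θ * ENNReal.ofReal (K * R * Real.exp (-((2 * lam - y') * R))) +
            ENNReal.ofReal (1 / θ) * ENNReal.ofReal pE := by
          unfold ex
          gcongr
      _ = ENNReal.ofReal (Real.exp (-(lam * t)) +
            θ * (K * R * Real.exp (-((2 * lam - y') * R))) + 1 / θ * pE) := by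
          rw [← ENNReal.ofReal_mul hθ0.le, ← ENNReal.ofReal_mul (by positivity),
            ← ENNReal.ofReal_add (by positivity) (by positivity),
            ← ENNReal.ofReal_add (by positivity) (by positivity)]
      _ ≤ _ := by
          refine ENNReal.ofReal_le_ofReal ?_
          rw [e3]
          linarith
  have hQ : (∫⁻ ω, Io lam {v : V | μ (em v) ≤ R} 0 (env X ω) ∂(volume : Measure Ω)) *
      (Db.card : ℝ≥0∞) ≤ ENNReal.ofReal (Real.exp (-h)) := by
    refine (mul_le_mul' hI2 hcard).trans ?_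
    rw [← ENNReal.ofReal_mul (by positivity)]
    refine ENNReal.ofReal_le_ofReal (le_of_eq ?_)
    rw [hh, neg_sub, sub_eq_add_neg, Real.exp_add, Real.exp_log h5]
    ring
  have hρ : 0 < R + c1 := by linarith
  have key := phi_exp hX hl.le μ hh0 hρ
    (phi_le_pow hX hl.le μ hD h0B hρ.le (fun a ha => le_trans ha (by linarith))
      (fun z hz => (hDR z hz).2) hQ) w
  refine key.trans (ENNReal.ofReal_le_ofReal (Real.exp_le_exp.2 (neg_le_neg ?_)))
  refine mul_le_mul_of_nonneg_right ?_ hμ0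
  rw [le_div_iff₀ hρ]
  exact hh1

end Pool.Agent.U874.FP
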